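import Pool.Agent.Helper90.SharpEq.Sel

/-!
From the sunflower conjecture with constant `c` to Q1 with constant `1 + c`.
-/

open Finset

namespace Pool.Agent.Helper90.SharpEq

open Pool.Agent.Helper10.GcdSun

/-- in a set of integers with uniform exponents a sunflower of supports is a gcd-sunflower -/
theorem supp_sunflower {A : Finset ℕ} (hpos : ∀ a ∈ A, 0 < a)
    (hunif : ∀ a ∈ A, ∀ b ∈ A, ∀ p, p ∈ a.primeFactors → p ∈ b.primeFactors →
      a.factorization p = b.factorization p) (h2 : 2 ≤ A.card)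
    (h : ∃ K : Finset ℕ, ∀ a ∈ A, ∀ b ∈ A, a ≠ b → a.primeFactors ∩ b.primeFactors = K) :
    GcdSunflower A := by
  classical
  obtain ⟨K, hK⟩ := h
  have hcap : ∀ a ∈ A, ∀ b ∈ A, a ≠ b → ∀ p, (p ∈ a.primeFactors ∧ p ∈ b.primeFactors) ↔
      p ∈ K := by
    intro a ha b hb hab p
    rw [← hK a ha b hb hab, mem_inter]
  obtain ⟨a0, ha0, b0, hb0, hab0⟩ := one_lt_card.1 (show 1 < A.card by omega)
  have hne : ∀ a ∈ A, a ≠ 0 := fun a ha => (hpos a ha).ne'
  have hgcd : ∀ a ∈ A, ∀ b ∈ A, a ≠ b → Nat.gcd a b = Nat.gcd a0 b0 := by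
    intro a ha b hb hab
    refine Nat.eq_of_factorization_eq (Nat.gcd_ne_zero_left (hne a ha))
      (Nat.gcd_ne_zero_left (hne a0 ha0)) fun p => ?_
    rw [Nat.factorization_gcd (hne a ha) (hne b hb),
      Nat.factorization_gcd (hne a0 ha0) (hne b0 hb0), Finsupp.inf_apply, Finsupp.inf_apply]
    by_cases hp : p ∈ K
    · obtain ⟨p1, p2⟩ := (hcap a ha b hb hab p).2 hp
      obtain ⟨p3, p4⟩ := (hcap a0 ha0 b0 hb0 hab0 p).2 hp
      rw [hunif a ha b hb p p1 p2, hunif a0 ha0 b0 hb0 p p3 p4, hunif b hb b0 hb0 p p2 p4]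
    · have z1 : a.factorization p ⊓ b.factorization p = 0 := by
        by_contra hz
        apply hp
        rw [← hcap a ha b hb hab p]
        constructor
        · show p ∈ a.factorization.support
          exact Finsupp.mem_support_iff.2 fun h => hz (by rw [h]; simp)
        · show p ∈ b.factorization.support
          exact Finsupp.mem_support_iff.2 fun h => hz (by rw [h]; simp)
      have z2 : a0.factorization p ⊓ b0.factorization p = 0 := by
        by_contra hz
        apply hp
        rw [← hcap a0 ha0 b0 hb0 hab0 p]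
        constructor
        · show p ∈ a0.factorization.support
          exact Finsupp.mem_support_iff.2 fun h => hz (by rw [h]; simp)
        · show p ∈ b0.factorization.support
          exact Finsupp.mem_support_iff.2 fun h => hz (by rw [h]; simp)
      rw [z1, z2]
  refine ⟨Nat.gcd a0 b0, Nat.gcd_pos_of_pos_left _ (hpos a0 ha0), hgcd, ?_⟩
  intro a ha
  obtain ⟨b, hb, hab⟩ : ∃ b ∈ A, a ≠ b := by
    by_cases h : a = a0
    · exact ⟨b0, hb0, h ▸ hab0⟩
    · exact ⟨a0, ha0, h⟩
  rw [← hgcd a ha b hb hab]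
  obtain ⟨q, hq⟩ := Nat.gcd_dvd_left a b
  refine ⟨q, hq, ?_⟩
  have hq0 : q ≠ 0 := by
    rintro rfl
    rw [mul_zero] at hq
    exact hne a ha hq
  have hg0 : Nat.gcd a b ≠ 0 := Nat.gcd_ne_zero_left (hne a ha)
  rw [Nat.coprime_iff_gcd_eq_one, Nat.eq_one_iff_not_exists_prime_dvd]
  intro p hp hpd
  have hpq : p ∣ q := hpd.trans (Nat.gcd_dvd_left _ _)
  have hpg : p ∣ Nat.gcd a b := hpd.trans (Nat.gcd_dvd_right _ _)
  have hpa : p ∈ a.primeFactors :=
    Nat.mem_primeFactors.2 ⟨hp, hpg.trans (Nat.gcd_dvd_left a b), hne a ha⟩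
  have hpb : p ∈ b.primeFactors :=
    Nat.mem_primeFactors.2 ⟨hp, hpg.trans (Nat.gcd_dvd_right a b), hne b hb⟩
  have e1 : (Nat.gcd a b).factorization p = a.factorization p := by
    rw [Nat.factorization_gcd (hne a ha) (hne b hb), Finsupp.inf_apply,
      ← hunif a ha b hb p hpa hpb, inf_idem]
  have e2 : a.factorization p = (Nat.gcd a b).factorization p + q.factorization p := by
    conv_lhs => rw [hq]
    rw [Nat.factorization_mul hg0 hq0, Finsupp.add_apply]
  have e3 := hp.factorization_pos_of_dvd hq0 hpq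
  omega

private theorem AtoB_Omega {a k : ℕ} (h : a.primeFactorsList.length = k) :
    ∑ p ∈ a.primeFactors, a.factorization p = k := by
  have h2 := ArithmeticFunction.cardFactors_eq_sum_factorization (n := a)
  rw [ArithmeticFunction.cardFactors_apply, h] at h2
  rw [h2]
  rfl

private theorem AtoB_term {c : ℝ} (hc : 0 < c) {a k : ℕ} (h : a.primeFactorsList.length = k)
    {P : Finset ℕ} (hP : a.primeFactors ⊆ P) :
    (c⁻¹) ^ a.primeFactors.card * ∏ p ∈ P, wt c (a.factorization p) = ((1 + c) ^ k)⁻¹ := by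
  have h1 : ∏ p ∈ P, wt c (a.factorization p) = ∏ p ∈ a.primeFactors, wt c (a.factorization p) := by
    symm
    refine prod_subset hP fun p _ hp => ?_
    have h0 : a.factorization p = 0 := Finsupp.notMem_support_iff.1 hp
    rw [h0]
    simp [wt]
  have h2 : ∏ p ∈ a.primeFactors, wt c (a.factorization p) =
      ∏ p ∈ a.primeFactors, (c * ((1 + c)⁻¹) ^ a.factorization p) := by
    refine prod_congr rfl fun p hp => ?_
    have h0 : a.factorization p ≠ 0 := Finsupp.mem_support_iff.1 hp
    unfold wt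
    rw [if_neg h0, div_eq_mul_inv, inv_pow]
  rw [h1, h2, prod_mul_distrib, prod_const, prod_pow_eq_pow_sum, AtoB_Omega h, ← mul_assoc,
    ← mul_pow, inv_mul_cancel₀ hc.ne', one_pow, one_mul, inv_pow]

theorem gcd_of_set {r : ℕ} (hr : 2 ≤ r) {c : ℝ} (hc : 0 < c)
    (h : ∀ k, SetBound r k (c ^ k)) (k : ℕ) : GcdBound r k ((1 + c) ^ k) := by
  classical
  intro A hA hfree
  obtain ⟨A', hA', huni, hsum⟩ := sel hc (A.biUnion Nat.primeFactors) A
    (fun a => (c⁻¹) ^ a.primeFactors.card) (fun a => by positivity)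
  have hunif : ∀ a ∈ A', ∀ b ∈ A', ∀ p, p ∈ a.primeFactors → p ∈ b.primeFactors →
      a.factorization p = b.factorization p := by
    intro a ha b hb p hpa hpb
    exact huni p (mem_biUnion.2 ⟨a, hA' ha, hpa⟩) a ha b hb
      (Finsupp.mem_support_iff.1 hpa) (Finsupp.mem_support_iff.1 hpb)
  have hinj : ∀ a ∈ A', ∀ b ∈ A', a.primeFactors = b.primeFactors → a = b := by
    intro a ha b hb hab
    refine Nat.eq_of_factorization_eq (hA a (hA' ha)).1.ne' (hA b (hA' hb)).1.ne' fun p => ?_
    by_cases hp : p ∈ a.primeFactors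
    · exact hunif a ha b hb p hp (hab ▸ hp)
    · have hp' : p ∉ b.primeFactors := fun h => hp (hab ▸ h)
      rw [Finsupp.notMem_support_iff.1 (show p ∉ a.factorization.support from hp),
        Finsupp.notMem_support_iff.1 (show p ∉ b.factorization.support from hp')]
  have hleft : ∑ a ∈ A, (c⁻¹) ^ a.primeFactors.card *
      ∏ p ∈ A.biUnion Nat.primeFactors, wt c (a.factorization p) = A.card * ((1 + c) ^ k)⁻¹ := by
    rw [sum_congr rfl fun a ha => AtoB_term hc (hA a ha).2
      (P := A.biUnion Nat.primeFactors) (fun p hp => mem_biUnion.2 ⟨a, ha, hp⟩),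
      sum_const, nsmul_eq_mul]
  rw [hleft] at hsum
  have hanti : Anti (A'.image Nat.primeFactors) := by
    intro S hS T hT hST
    obtain ⟨a, ha, rfl⟩ := mem_image.1 hS
    obtain ⟨b, hb, rfl⟩ := mem_image.1 hT
    refine Subset.antisymm hST ?_
    have h1 := AtoB_Omega (hA a (hA' ha)).2
    have h2 := AtoB_Omega (hA b (hA' hb)).2
    have h3 : ∑ p ∈ a.primeFactors, a.factorization p = ∑ p ∈ a.primeFactors, b.factorization p :=
      sum_congr rfl fun p hp => hunif a ha b hb p hp (hST hp)
    have h4 := sum_sdiff (f := fun p => b.factorization p) hST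
    have h5 : ∑ p ∈ b.primeFactors \ a.primeFactors, b.factorization p = 0 := by
      have h6 : ∑ p ∈ b.primeFactors \ a.primeFactors, b.factorization p +
        ∑ p ∈ a.primeFactors, b.factorization p = ∑ p ∈ b.primeFactors, b.factorization p := h4
      omega
    intro p hp
    by_contra hpa
    have h6 := sum_eq_zero_iff.1 h5 p (mem_sdiff.2 ⟨hp, hpa⟩)
    exact Finsupp.mem_support_iff.1 hp h6
  have hsf : SFree r (A'.image Nat.primeFactors) := by
    rintro ⟨G, hG, hGcard, K, hK⟩
    set S := A'.filter (fun a => a.primeFactors ∈ G) with hS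
    have hSA : ∀ a ∈ S, a ∈ A' := fun a ha => (mem_filter.1 ha).1
    have hSG : ∀ a ∈ S, a.primeFactors ∈ G := fun a ha => (mem_filter.1 ha).2
    have hGim : G = S.image Nat.primeFactors := by
      ext T
      constructor
      · intro hT
        obtain ⟨a, ha, rfl⟩ := mem_image.1 (hG hT)
        exact mem_image.2 ⟨a, mem_filter.2 ⟨ha, hT⟩, rfl⟩
      · intro hT
        obtain ⟨a, ha, rfl⟩ := mem_image.1 hT
        exact hSG a ha
    have hScard : S.card = r := by
      rw [← hGcard, hGim, card_image_of_injOn]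
      intro a ha b hb hab
      exact hinj a (hSA a ha) b (hSA b hb) hab
    refine hfree ⟨S, fun a ha => hA' (hSA a ha), hScard, supp_sunflower
      (fun a ha => (hA a (hA' (hSA a ha))).1)
      (fun a ha b hb p hpa hpb => hunif a (hSA a ha) b (hSA b hb) p hpa hpb)
      (by omega) ⟨K, ?_⟩⟩
    intro a ha b hb hab
    exact hK _ (hSG a ha) _ (hSG b hb) fun h => hab (hinj a (hSA a ha) b (hSA b hb) h)
  have hlym := lym hr hc h hanti hsf
  rw [sum_image (fun a ha b hb hab => hinj a ha b hb hab)] at hlym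
  have h7 := hsum.trans hlym
  have h8 : (0:ℝ) < (1 + c) ^ k := by positivity
  rw [← div_eq_mul_inv, div_le_one h8] at h7
  exact h7

end Pool.Agent.Helper90.SharpEq
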