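import Mathlib

/-!
Generating functions.
-/

open Finset

namespace Pool.Agent.Helper90.SharpEq

/-- the bound of one power -/
theorem gen_pow {M j : ℕ} {c : ℝ} (hc : 0 < c) {t : ℕ} (hJ : 1 ≤ j * t)
    (h : ∀ k, j * t ≤ k →
      (M : ℝ) ^ t * ((k - 1).choose (j * t - 1) : ℕ) ≤ (1 + c) ^ k)
    {y : ℝ} (hy : 0 < y) (hy1 : (1 + c) * y < 1) :
    ((M : ℝ) * (y / (1 - y)) ^ j) ^ t ≤ 1 / (1 - (1 + c) * y) := by
  have hy2 : y < 1 := by nlinarith
  have hn : ‖y‖ < 1 := by rw [Real.norm_eq_abs, abs_of_pos hy]; exact hy2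
  have hz0 : 0 ≤ (1 + c) * y := by positivity
  have s1 := hasSum_choose_mul_geometric_of_norm_lt_one (j * t - 1) hn
  have s2 := (s1.mul_left ((M : ℝ) ^ t * y ^ (j * t)))
  have s3 := (hasSum_geometric_of_lt_one hz0 hy1).mul_left (((1 + c) * y) ^ (j * t))
  have hle := hasSum_le (fun n => ?_) s2 s3
  · have e1 : j * t - 1 + 1 = j * t := by omega
    rw [e1] at hle
    have e2 : ((M : ℝ) * (y / (1 - y)) ^ j) ^ t =
        (M : ℝ) ^ t * y ^ (j * t) * (1 / (1 - y) ^ (j * t)) := by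
      rw [mul_pow, ← pow_mul, div_pow]
      ring
    rw [e2]
    refine hle.trans ?_
    have h1 : ((1 + c) * y) ^ (j * t) ≤ 1 := pow_le_one₀ hz0 hy1.le
    have h2 : 0 < (1 - (1 + c) * y)⁻¹ := inv_pos.2 (by linarith)
    rw [one_div]
    nlinarith
  · have h3 := h (n + j * t) (by omega)
    have e3 : n + j * t - 1 = n + (j * t - 1) := by omega
    rw [e3] at h3
    have h4 : 0 ≤ y ^ (n + j * t) := by positivity
    have h5 := mul_le_mul_of_nonneg_right h3 h4
    calc (M : ℝ) ^ t * y ^ (j * t) * (((n + (j * t - 1)).choose (j * t - 1) : ℕ) * y ^ n)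
        = (M : ℝ) ^ t * ((n + (j * t - 1)).choose (j * t - 1) : ℕ) * y ^ (n + j * t) := by
          rw [pow_add]; ring
      _ ≤ (1 + c) ^ (n + j * t) * y ^ (n + j * t) := h5
      _ = ((1 + c) * y) ^ (j * t) * ((1 + c) * y) ^ n := by
          rw [← mul_pow, pow_add]; ring

theorem gen {M j : ℕ} {c : ℝ} (hc : 0 < c) (hj : 1 ≤ j) (T : ℕ)
    (h : ∀ t, T ≤ t → ∀ k, j * t ≤ k →
      (M : ℝ) ^ t * ((k - 1).choose (j * t - 1) : ℕ) ≤ (1 + c) ^ k) :
    (M : ℝ) ≤ c ^ j := by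
  have key : ∀ y : ℝ, 0 < y → y < 1 / (1 + c) → (M : ℝ) * (y / (1 - y)) ^ j ≤ 1 := by
    intro y hy hy1
    have hc1 : 0 < 1 + c := by linarith
    have hy2 : (1 + c) * y < 1 := by
      rw [lt_div_iff₀ hc1] at hy1
      linarith
    by_contra hlt
    push Not at hlt
    obtain ⟨n, hn⟩ := pow_unbounded_of_one_lt (1 / (1 - (1 + c) * y)) hlt
    have h1 := gen_pow (M := M) (j := j) hc (t := max n (max T 1))
      (by have : 1 ≤ max n (max T 1) := (le_max_right T 1).trans (le_max_right _ _)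
          exact Nat.mul_pos hj this)
      (fun k hk => h _ ((le_max_left T 1).trans (le_max_right _ _)) k hk) hy hy2
    have h2 : ((M : ℝ) * (y / (1 - y)) ^ j) ^ n ≤
        ((M : ℝ) * (y / (1 - y)) ^ j) ^ (max n (max T 1)) :=
      pow_le_pow_right₀ hlt.le (le_max_left _ _)
    linarith
  have hc1 : 0 < 1 + c := by linarith
  have hcont : ContinuousAt (fun y : ℝ => (M : ℝ) * (y / (1 - y)) ^ j) (1 / (1 + c)) := by
    have hne : 1 - 1 / (1 + c) ≠ 0 := by
      have : 1 - 1 / (1 + c) = c / (1 + c) := by field_simp; ring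
      rw [this]
      positivity
    exact ContinuousAt.mul continuousAt_const
      ((ContinuousAt.div continuousAt_id (continuousAt_const.sub continuousAt_id) hne).pow j)
  have hlim : Filter.Tendsto (fun y : ℝ => (M : ℝ) * (y / (1 - y)) ^ j)
      (nhdsWithin (1 / (1 + c)) (Set.Iio (1 / (1 + c))))
      (nhds ((M : ℝ) * (1 / (1 + c) / (1 - 1 / (1 + c))) ^ j)) :=
    hcont.tendsto.mono_left nhdsWithin_le_nhds
  have hle : (M : ℝ) * (1 / (1 + c) / (1 - 1 / (1 + c))) ^ j ≤ 1 := by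
    refine le_of_tendsto hlim ?_
    have h0 : (0:ℝ) < 1 / (1 + c) := by positivity
    filter_upwards [self_mem_nhdsWithin, mem_nhdsWithin_of_mem_nhds (lt_mem_nhds h0)] with y h1 h2
    exact key y h2 h1
  have e : 1 / (1 + c) / (1 - 1 / (1 + c)) = 1 / c := by
    have : 1 - 1 / (1 + c) = c / (1 + c) := by field_simp; ring
    rw [this]
    field_simp
  rw [e, one_div, inv_pow, ← div_eq_mul_inv, div_le_one (by positivity)] at hle
  exact hle

end Pool.Agent.Helper90.SharpEq
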