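import Pool.Agent.Helper90.SharpEq.Expo
import Pool.Agent.Helper90.SharpEq.Gen

/-!
From Q1 with constant `1 + c` to the sunflower conjecture with constant `c`.
-/

open Finset

namespace Pool.Agent.Helper90.SharpEq

open Pool.Agent.Helper10.GcdSun

/-- families with sets of cardinality `k` are antichains -/
theorem anti_of_card {F : Finset (Finset ℕ)} {k : ℕ} (hk : ∀ S ∈ F, S.card = k) : Anti F := by
  intro S hS T hT h
  exact Finset.eq_of_subset_of_card_le h (by rw [hk S hS, hk T hT])

/-- the ground set is bounded -/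
theorem exists_bd (F : Finset (Finset ℕ)) : ∃ n : ℕ, 1 ≤ n ∧ ∀ S ∈ F, ∀ x ∈ S, x < n := by
  refine ⟨(F.biUnion id).sup id + 1, by omega, ?_⟩
  intro S hS x hx
  have : id x ≤ (F.biUnion id).sup id := le_sup (mem_biUnion.2 ⟨S, hS, hx⟩)
  simp only [id] at this
  exact Nat.lt_succ_of_le this

theorem set_of_gcd {r : ℕ} (hr : 2 ≤ r) {c : ℝ} (hc : 0 < c)
    (h : ∀ k, GcdBound r k ((1 + c) ^ k)) (k : ℕ) : SetBound r k (c ^ k) := by
  intro F hk hf
  rcases Nat.eq_zero_or_pos k with h0 | hpos
  · subst h0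
    have hsub : F ⊆ {∅} := by
      intro S hS
      rw [mem_singleton]
      exact card_eq_zero.1 (hk S hS)
    have h1 := card_le_card hsub
    rw [card_singleton] at h1
    rw [pow_zero]
    exact_mod_cast h1
  · obtain ⟨n, hn, hF⟩ := exists_bd F
    refine gen hc hpos 1 ?_
    intro t ht K hK
    have hlt : 1 ≤ k * t := Nat.mul_pos hpos ht
    obtain ⟨A, hA, hA1, hA2⟩ := expo hr (F := pw n F t) (n := n * t) (j := k * t) (k := K)
      (pw_bd hF t) (pw_unif hF hk t) hlt hK (pw_free hr hF (anti_of_card hk) hf t)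
    have h3 := h K A (fun a ha => ⟨(hA1 a ha).1, (hA1 a ha).2.1⟩) hA2
    rw [hA, pw_card hF t] at h3
    push_cast at h3
    exact h3

end Pool.Agent.Helper90.SharpEq
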