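import Pool.Agent.Helper90.SharpEq.NthP

/-!
Asymptotics, lower bound.
-/

open Finset

namespace Pool.Agent.Helper90.SharpEq

theorem low {L : ℝ} (hL : 0 ≤ L) {ε : ℝ} (hε : 0 < ε) {n j : ℕ} (hn : 1 ≤ n) (hj : 1 ≤ j) :
    ∃ T : ℕ, ∀ t : ℕ, T ≤ t → ∀ k : ℕ, j * t ≤ k →
      (((Nat.nth Nat.Prime (n * t)) ^ k : ℕ) : ℝ) ^
        ((L + ε) / Real.log (Real.log (((Nat.nth Nat.Prime (n * t)) ^ k : ℕ) : ℝ))) ≤
        Real.exp ((L + 2 * ε) * k) := by
  have hLε : 0 < L + ε := by linarith
  have hδ : 0 < ε / (2 * (L + ε)) := by positivity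
  obtain ⟨n₀, hn₀⟩ := nth_prime_le hδ
  have hlim : Filter.Tendsto (fun t : ℕ => Real.log (t : ℝ)) Filter.atTop Filter.atTop :=
    Real.tendsto_log_atTop.comp tendsto_natCast_atTop_atTop
  set C : ℝ := ((L + 3 / 2 * ε) * Real.log n - (L + 2 * ε) * Real.log (Real.log 2)) / (ε / 2)
    with hC
  obtain ⟨T1, hT1⟩ := Filter.eventually_atTop.mp (hlim.eventually_ge_atTop C)
  refine ⟨max (max n₀ 3) T1, fun t ht k hk => ?_⟩
  have ht0 : n₀ ≤ t := le_trans (le_trans (le_max_left _ _) (le_max_left _ _)) ht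
  have ht3 : 3 ≤ t := le_trans (le_trans (le_max_right _ _) (le_max_left _ _)) ht
  have htT : T1 ≤ t := le_trans (le_max_right _ _) ht
  have hlogt := hT1 t htT
  set P : ℕ := Nat.nth Nat.Prime (n * t) with hP
  have hPp : P.Prime := Nat.prime_nth_prime (n * t)
  have hP2 : (2 : ℝ) ≤ P := by exact_mod_cast hPp.two_le
  have hPpos : (0 : ℝ) < P := by linarith
  have hnR : (1 : ℝ) ≤ n := by exact_mod_cast hn
  have htR : (3 : ℝ) ≤ t := by exact_mod_cast ht3
  have hkt : (t : ℝ) ≤ k := by
    have h1 : t ≤ k := le_trans (Nat.le_mul_of_pos_left t (by omega)) hk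
    exact_mod_cast h1
  have hntn : n₀ ≤ n * t := le_trans ht0 (Nat.le_mul_of_pos_left t (by omega))
  have hPle := hn₀ (n * t) hntn
  rw [← hP] at hPle
  have hl2 : 0 < Real.log 2 := Real.log_pos (by norm_num)
  have hlogP2 : Real.log 2 ≤ Real.log P := Real.log_le_log (by norm_num) hP2
  have hlogP0 : 0 < Real.log P := lt_of_lt_of_le hl2 hlogP2
  have hntpos : (0 : ℝ) < ((n * t : ℕ) : ℝ) := by
    push_cast
    have : (0 : ℝ) < n := by linarith
    have : (0 : ℝ) < t := by linarith
    positivity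
  have hlogPle : Real.log P ≤ (1 + ε / (2 * (L + ε))) * (Real.log n + Real.log t) := by
    have h1 := Real.log_le_log hPpos hPle
    rw [Real.log_rpow hntpos] at h1
    have h2 : Real.log ((n * t : ℕ) : ℝ) = Real.log n + Real.log t := by
      push_cast
      rw [Real.log_mul (by linarith) (by linarith)]
    rw [h2] at h1
    exact h1
  have hlogPk : Real.log ((P ^ k : ℕ) : ℝ) = k * Real.log P := by
    push_cast
    rw [Real.log_pow]
  have hPkpos : (0 : ℝ) < ((P ^ k : ℕ) : ℝ) := by
    push_cast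
    positivity
  rw [Real.rpow_def_of_pos hPkpos, hlogPk]
  apply Real.exp_le_exp.mpr
  have hk0 : (0 : ℝ) < k := by linarith
  have ht2 : 1 < t * Real.log 2 := by
    have h1 : (0.6931471803 : ℝ) < Real.log 2 := Real.log_two_gt_d9
    nlinarith
  have hM : Real.log (t * Real.log 2) ≤ Real.log (k * Real.log P) := by
    apply Real.log_le_log (by linarith)
    exact mul_le_mul hkt hlogP2 hl2.le hk0.le
  have hM0 : 0 < Real.log (t * Real.log 2) := Real.log_pos ht2
  have hM1 : 0 < Real.log (k * Real.log P) := lt_of_lt_of_le hM0 hM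
  have hsplit : Real.log (t * Real.log 2) = Real.log t + Real.log (Real.log 2) :=
    Real.log_mul (by linarith) hl2.ne'
  have hkey : (L + ε) * Real.log P ≤ (L + 2 * ε) * Real.log (k * Real.log P) := by
    have e1 : (L + ε) * (1 + ε / (2 * (L + ε))) = L + 3 / 2 * ε := by
      field_simp
      ring
    have e2 : (L + ε) * Real.log P ≤ (L + 3 / 2 * ε) * (Real.log n + Real.log t) := by
      calc (L + ε) * Real.log P
          ≤ (L + ε) * ((1 + ε / (2 * (L + ε))) * (Real.log n + Real.log t)) :=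
            mul_le_mul_of_nonneg_left hlogPle hLε.le
        _ = (L + 3 / 2 * ε) * (Real.log n + Real.log t) := by rw [← mul_assoc, e1]
    have e3 : (L + 3 / 2 * ε) * (Real.log n + Real.log t) ≤
        (L + 2 * ε) * (Real.log t + Real.log (Real.log 2)) := by
      have h1 : C * (ε / 2) =
          (L + 3 / 2 * ε) * Real.log n - (L + 2 * ε) * Real.log (Real.log 2) := by
        rw [hC]
        field_simp
      have h2 : C * (ε / 2) ≤ Real.log t * (ε / 2) :=
        mul_le_mul_of_nonneg_right hlogt (by positivity)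
      nlinarith
    calc (L + ε) * Real.log P ≤ (L + 3 / 2 * ε) * (Real.log n + Real.log t) := e2
      _ ≤ (L + 2 * ε) * (Real.log t + Real.log (Real.log 2)) := e3
      _ = (L + 2 * ε) * Real.log (t * Real.log 2) := by rw [hsplit]
      _ ≤ (L + 2 * ε) * Real.log (k * Real.log P) :=
          mul_le_mul_of_nonneg_left hM (by linarith)
  calc (k : ℝ) * Real.log P * ((L + ε) / Real.log (k * Real.log P))
      = k * (((L + ε) * Real.log P) / Real.log (k * Real.log P)) := by ring
    _ ≤ k * (L + 2 * ε) := by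
        apply mul_le_mul_of_nonneg_left _ hk0.le
        rw [div_le_iff₀ hM1]
        exact hkey
    _ = (L + 2 * ε) * k := by ring

end Pool.Agent.Helper90.SharpEq
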