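import Pool.Agent.Helper90.SharpEq.Sqf
import Pool.Agent.Helper90.SharpEq.Low
import Pool.Agent.Helper90.SharpEq.BtoA

/-!
From the bound for subsets of `{1, ..., N}` to the sunflower conjecture, first version.
-/

open Finset

namespace Pool.Agent.Helper90.SharpEq

open Pool.Agent.Helper10.GcdSun

private theorem ctoa_eps {r : ℕ} (hr : 2 ≤ r) {c : ℝ} (hc : 1 ≤ c)
    (h : ∀ ε : ℝ, 0 < ε → ∃ N₀ : ℕ, ∀ N : ℕ, N₀ ≤ N → ∀ A : Finset ℕ, A ⊆ Icc 1 N →
      PFree r A → (A.card : ℝ) ≤ (N : ℝ) ^ ((Real.log c + ε) / Real.log (Real.log N)))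
    {k : ℕ} (hk1 : 1 ≤ k) {F : Finset (Finset ℕ)} (hk : ∀ S ∈ F, S.card = k) (hf : SFree r F)
    {ε : ℝ} (hε : 0 < ε) : (F.card : ℝ) ≤ Real.exp ((Real.log c + 2 * ε) * k) := by
  obtain ⟨N₀, hN₀⟩ := h ε hε
  obtain ⟨n, hn, hFn⟩ := exists_bd F
  have hL : 0 ≤ Real.log c := Real.log_nonneg hc
  obtain ⟨T, hT⟩ := low hL hε hn hk1
  obtain ⟨t, ht⟩ : ∃ t : ℕ, t = max (max T N₀) 1 := ⟨_, rfl⟩
  have ht1 : T ≤ t := by rw [ht]; exact (le_max_left _ _).trans (le_max_left _ _)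
  have ht2 : N₀ ≤ t := by rw [ht]; exact (le_max_right _ _).trans (le_max_left _ _)
  have ht3 : 1 ≤ t := by rw [ht]; exact le_max_right _ _
  obtain ⟨A, hA1, hA2, hA3⟩ := sqf (n := n * t) (j := k * t) (pw_bd hFn t) (pw_unif hFn hk t)
    (pw_free hr hFn (anti_of_card hk) hf t)
  set N := (Nat.nth Nat.Prime (n * t)) ^ (k * t) with hN
  have hp : 2 ≤ Nat.nth Nat.Prime (n * t) := (Nat.prime_nth_prime (n * t)).two_le
  have hNt : N₀ ≤ N := by
    have h1 : t ≤ 2 ^ t := Nat.lt_two_pow_self.le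
    have h2 : 2 ^ t ≤ 2 ^ (k * t) := Nat.pow_le_pow_right (by norm_num)
      (Nat.le_mul_of_pos_left t hk1)
    have h3 : 2 ^ (k * t) ≤ N := Nat.pow_le_pow_left hp (k * t)
    omega
  have h4 := hN₀ N hNt A (fun a ha => mem_Icc.2 ⟨(hA2 a ha).1, (hA2 a ha).2⟩) hA3
  have h5 := hT t ht1 (k * t) le_rfl
  rw [hA1, pw_card hFn t] at h4
  have h6 := h4.trans h5
  push_cast at h6
  have h7 : Real.exp ((Real.log c + 2 * ε) * (k * t)) = Real.exp ((Real.log c + 2 * ε) * k) ^ t := by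
    rw [← Real.exp_nat_mul]
    congr 1
    ring
  rw [h7] at h6
  exact le_of_pow_le_pow_left₀ (by omega) (Real.exp_pos _).le h6

theorem ctoa {r : ℕ} (hr : 2 ≤ r) {c : ℝ} (hc : 1 ≤ c)
    (h : ∀ ε : ℝ, 0 < ε → ∃ N₀ : ℕ, ∀ N : ℕ, N₀ ≤ N → ∀ A : Finset ℕ, A ⊆ Icc 1 N →
      PFree r A → (A.card : ℝ) ≤ (N : ℝ) ^ ((Real.log c + ε) / Real.log (Real.log N)))
    (k : ℕ) : SetBound r k (c ^ k) := by
  intro F hk hf
  rcases Nat.eq_zero_or_pos k with h0 | hpos
  · subst h0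
    have hsub : F ⊆ {∅} := by
      intro S hS
      rw [mem_singleton]
      exact card_eq_zero.1 (hk S hS)
    have h1 := card_le_card hsub
    rw [card_singleton] at h1
    rw [pow_zero]
    exact_mod_cast h1
  · by_contra hlt
    push Not at hlt
    have hkR : (0 : ℝ) < k := by exact_mod_cast hpos
    have hc0 : 0 < c := by linarith
    have hck : 0 < c ^ k := pow_pos hc0 k
    have hF0 : (0 : ℝ) < F.card := hck.trans hlt
    have hlog : k * Real.log c < Real.log F.card := by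
      rw [← Real.log_pow]
      exact Real.log_lt_log hck hlt
    set δ := Real.log F.card - k * Real.log c with hδ
    have hδ0 : 0 < δ := by linarith
    have hε : 0 < δ / (4 * k) := by positivity
    have h1 := ctoa_eps hr hc h hpos hk hf hε
    have h2 := Real.log_le_log hF0 h1
    rw [Real.log_exp] at h2
    have h3 : (Real.log c + 2 * (δ / (4 * k))) * k = k * Real.log c + δ / 2 := by
      field_simp
      ring
    rw [h3] at h2
    linarith

end Pool.Agent.Helper90.SharpEq
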