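import Pool.Agent.Helper90.SharpEq.Prod

/-!
Definitions for the sharp equivalence.
-/

open Finset

namespace Pool.Agent.Helper90.SharpEq

open Pool.Agent.Helper10.GcdSun

/-- no `r` elements of `A` form a gcd-sunflower -/
def GFree (r : ℕ) (A : Finset ℕ) : Prop :=
  ¬ ∃ S : Finset ℕ, S ⊆ A ∧ S.card = r ∧ GcdSunflower S

/-- no `r` elements of `A` have one common pairwise greatest common divisor -/
def PFree (r : ℕ) (A : Finset ℕ) : Prop :=
  ¬ ∃ S : Finset ℕ, S ⊆ A ∧ S.card = r ∧ ∃ d : ℕ, ∀ a ∈ S, ∀ b ∈ S, a ≠ b → Nat.gcd a b = d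

/-- the weights of the exponents -/
noncomputable def wt (c : ℝ) (e : ℕ) : ℝ := if e = 0 then 1 else c / (1 + c) ^ e

/-- the `y`-smooth part of `a` -/
def sm (y a : ℕ) : ℕ := ∏ p ∈ a.primeFactors.filter (fun p => p ≤ y), p ^ a.factorization p

end Pool.Agent.Helper90.SharpEq
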