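import Pool.Agent.Helper90.SharpEq.Low
import Pool.Agent.Helper90.SharpEq.BtoA

/-!
From the bound for subsets of `{1, ..., N}` to the sunflower conjecture, second version.
-/

open Finset

namespace Pool.Agent.Helper90.SharpEq

open Pool.Agent.Helper10.GcdSun

private theorem dtoa_eps {r : ℕ} (hr : 2 ≤ r) {c : ℝ} (hc : 1 ≤ c)
    (h : ∀ ε : ℝ, 0 < ε → ∃ N₀ : ℕ, ∀ N : ℕ, N₀ ≤ N → ∀ A : Finset ℕ, A ⊆ Icc 1 N →
      GFree r A → (A.card : ℝ) ≤ (N : ℝ) ^ ((Real.log (1 + c) + ε) / Real.log (Real.log N)))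
    {k : ℕ} (hk1 : 1 ≤ k) {F : Finset (Finset ℕ)} (hk : ∀ S ∈ F, S.card = k) (hf : SFree r F)
    {ε : ℝ} (hε : 0 < ε) : (F.card : ℝ) ≤ ((1 + c) * Real.exp (2 * ε) - 1) ^ k := by
  obtain ⟨N₀, hN₀⟩ := h ε hε
  obtain ⟨n, hn, hFn⟩ := exists_bd F
  have hL : 0 ≤ Real.log (1 + c) := Real.log_nonneg (by linarith)
  obtain ⟨T, hT⟩ := low hL hε hn hk1
  have he1 : 1 < Real.exp (2 * ε) := Real.one_lt_exp_iff.2 (by linarith)
  refine gen (c := (1 + c) * Real.exp (2 * ε) - 1) (by nlinarith) hk1 (max (max T N₀) 1) ?_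
  intro t ht K hK
  have ht1 : T ≤ t := (le_max_left _ _).trans ((le_max_left _ _).trans ht)
  have ht2 : N₀ ≤ t := (le_max_right _ _).trans ((le_max_left _ _).trans ht)
  have ht3 : 1 ≤ t := (le_max_right _ _).trans ht
  have hj1 : 1 ≤ k * t := Nat.mul_pos hk1 ht3
  obtain ⟨A, hA1, hA2, hA3⟩ := expo (n := n * t) (j := k * t) (k := K) hr
    (pw_bd hFn t) (pw_unif hFn hk t) hj1 hK (pw_free hr hFn (anti_of_card hk) hf t)
  set N := (Nat.nth Nat.Prime (n * t)) ^ K with hN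
  have hp : 2 ≤ Nat.nth Nat.Prime (n * t) :=
    (Nat.prime_nth_prime (n * t)).two_le
  have hNt : N₀ ≤ N := by
    have h1 : t ≤ 2 ^ t := Nat.lt_two_pow_self.le
    have h2 : 2 ^ t ≤ 2 ^ K := Nat.pow_le_pow_right (by norm_num)
      (le_trans (Nat.le_mul_of_pos_left t hk1) hK)
    have h3 : 2 ^ K ≤ N := Nat.pow_le_pow_left hp K
    omega
  have h1 := hN₀ N hNt A (by
    intro a ha
    obtain ⟨h2, -, h4⟩ := hA2 a ha
    exact mem_Icc.2 ⟨h2, h4⟩) hA3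
  rw [hA1, pw_card hFn t] at h1
  have h2 := hT t ht1 K hK
  have h3 : (1 + ((1 + c) * Real.exp (2 * ε) - 1)) ^ K = Real.exp ((Real.log (1 + c) + 2 * ε) * K) := by
    rw [mul_comm _ (K : ℝ), Real.exp_nat_mul, Real.exp_add, Real.exp_log (by linarith)]
    congr 1
    ring
  rw [h3]
  push_cast at h1
  refine le_trans ?_ (le_trans h1 ?_)
  · exact le_rfl
  · have e1 : ((N : ℕ) : ℝ) = ((Nat.nth Nat.Prime (n * t) : ℕ) : ℝ) ^ K := by
      rw [hN]; push_cast; rfl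
    rw [e1]
    push_cast at h2
    exact h2

theorem dtoa {r : ℕ} (hr : 2 ≤ r) {c : ℝ} (hc : 1 ≤ c)
    (h : ∀ ε : ℝ, 0 < ε → ∃ N₀ : ℕ, ∀ N : ℕ, N₀ ≤ N → ∀ A : Finset ℕ, A ⊆ Icc 1 N →
      GFree r A → (A.card : ℝ) ≤ (N : ℝ) ^ ((Real.log (1 + c) + ε) / Real.log (Real.log N)))
    (k : ℕ) : SetBound r k (c ^ k) := by
  intro F hk hf
  rcases Nat.eq_zero_or_pos k with rfl | hk1
  · have h1 : F ⊆ {∅} := by
      intro S hS
      exact mem_singleton.2 (card_eq_zero.1 (hk S hS))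
    have h2 := card_le_card h1
    rw [card_singleton] at h2
    rw [pow_zero]
    exact_mod_cast h2
  · have hcont : Filter.Tendsto (fun ε : ℝ => ((1 + c) * Real.exp (2 * ε) - 1) ^ k)
        (nhdsWithin 0 (Set.Ioi 0)) (nhds (c ^ k)) := by
      have h1 : Continuous (fun ε : ℝ => ((1 + c) * Real.exp (2 * ε) - 1) ^ k) := by fun_prop
      have h2 := (h1.tendsto 0).mono_left (nhdsWithin_le_nhds (s := Set.Ioi (0 : ℝ)))
      have h3 : ((1 + c) * Real.exp (2 * 0) - 1) ^ k = c ^ k := by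
        rw [mul_zero, Real.exp_zero, mul_one, add_sub_cancel_left]
      rwa [h3] at h2
    refine ge_of_tendsto hcont ?_
    filter_upwards [self_mem_nhdsWithin] with ε hε
    exact dtoa_eps hr hc h hk1 hk hf hε

end Pool.Agent.Helper90.SharpEq
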