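import Pool.Agent.Helper90.SharpEq.Defs

/-!
Integers with given supports and all possible exponents.
-/

open Finset

namespace Pool.Agent.Helper90.SharpEq

open Pool.Agent.Helper10.GcdSun

/-- the integer with support `S` and exponents `e x + 1` -/
noncomputable def pexp (S : Finset ℕ) (e : ℕ →₀ ℕ) : ℕ :=
  ∏ x ∈ S, (Nat.nth Nat.Prime x) ^ (e x + 1)

private theorem expo_pos (S : Finset ℕ) (e : ℕ →₀ ℕ) : 0 < pexp S e :=
  prod_pos fun i _ => pow_pos (prime_nth i).pos _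

private theorem expo_fac (S : Finset ℕ) (e : ℕ →₀ ℕ) (y : ℕ) :
    (pexp S e).factorization (Nat.nth Nat.Prime y) = if y ∈ S then e y + 1 else 0 := by
  classical
  unfold pexp
  rw [Nat.factorization_prod (fun x _ => (pow_pos (prime_nth x).pos _).ne')]
  rw [Finsupp.finsetSum_apply]
  have h1 : ∀ x ∈ S, ((Nat.nth Nat.Prime x ^ (e x + 1)).factorization) (Nat.nth Nat.Prime y) =
      if x = y then e y + 1 else 0 := by
    intro x _
    rw [Nat.Prime.factorization_pow (prime_nth x), Finsupp.single_apply]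
    by_cases h : x = y
    · rw [if_pos h, if_pos (by rw [h]), h]
    · rw [if_neg h, if_neg (fun h' => h (nth_inj h'))]
  rw [sum_congr rfl h1, sum_ite_eq']

private theorem expo_dvd {S : Finset ℕ} {e : ℕ →₀ ℕ} {p : ℕ} (hp : p.Prime)
    (h : p ∣ pexp S e) : ∃ x ∈ S, p = Nat.nth Nat.Prime x := by
  unfold pexp at h
  rw [Prime.dvd_finsetProd_iff hp.prime] at h
  obtain ⟨x, hx, h⟩ := h
  exact ⟨x, hx, (Nat.prime_dvd_prime_iff_eq hp (prime_nth x)).1 (hp.dvd_of_dvd_pow h)⟩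

private theorem expo_dvd_iff {S : Finset ℕ} {e : ℕ →₀ ℕ} {x : ℕ} :
    Nat.nth Nat.Prime x ∣ pexp S e ↔ x ∈ S := by
  constructor
  · intro h
    obtain ⟨y, hy, hxy⟩ := expo_dvd (prime_nth x) h
    rwa [nth_inj hxy]
  · intro h
    exact (dvd_pow_self _ (by omega)).trans (dvd_prod_of_mem _ h)

private theorem expo_len (S : Finset ℕ) (e : ℕ →₀ ℕ) :
    (pexp S e).primeFactorsList.length = ∑ x ∈ S, (e x + 1) := by
  classical
  rw [← ArithmeticFunction.cardFactors_apply]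
  induction S using Finset.induction_on with
  | empty => simp [pexp]
  | insert i S hi ih =>
    have h1 : pexp (insert i S) e = Nat.nth Nat.Prime i ^ (e i + 1) * pexp S e := prod_insert hi
    rw [h1, ArithmeticFunction.cardFactors_mul (pow_pos (prime_nth i).pos _).ne' (expo_pos S e).ne',
      ih, ArithmeticFunction.cardFactors_apply_prime_pow (prime_nth i), sum_insert hi]

private theorem expo_le {n : ℕ} {S : Finset ℕ} (hS : ∀ x ∈ S, x < n) (e : ℕ →₀ ℕ) :
    pexp S e ≤ (Nat.nth Nat.Prime n) ^ (∑ x ∈ S, (e x + 1)) := by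
  rw [← prod_pow_eq_pow_sum]
  unfold pexp
  refine prod_le_prod' fun x hx => ?_
  exact Nat.pow_le_pow_left (Nat.nth_monotone Nat.infinite_setOfPred_prime (hS x hx).le) _

private theorem expo_inj {S S' : Finset ℕ} {e e' : ℕ →₀ ℕ} (he : e.support ⊆ S)
    (he' : e'.support ⊆ S') (h : pexp S e = pexp S' e') : S = S' ∧ e = e' := by
  have h1 : ∀ x, x ∈ S ↔ x ∈ S' := by
    intro x
    rw [← expo_dvd_iff (S := S) (e := e), h, expo_dvd_iff]
  have h2 : S = S' := by
    ext x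
    exact h1 x
  refine ⟨h2, ?_⟩
  ext x
  by_cases hx : x ∈ S
  · have h3 := expo_fac S e x
    have h4 := expo_fac S' e' x
    rw [if_pos hx] at h3
    rw [if_pos ((h1 x).1 hx)] at h4
    rw [h] at h3
    omega
  · have h3 : x ∉ e.support := fun h5 => hx (he h5)
    have h4 : x ∉ e'.support := fun h5 => hx ((h1 x).2 (he' h5))
    rw [Finsupp.notMem_support_iff.1 h3, Finsupp.notMem_support_iff.1 h4]

/-- the exponent of a prime factor of the kernel -/
private theorem expo_ker {a d b p : ℕ} (ha : 0 < a) (hab : a = d * b) (hc : Nat.Coprime b d)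
    (hp : p.Prime) (hpd : p ∣ d) : a.factorization p = d.factorization p := by
  have hd0 : d ≠ 0 := by
    rintro rfl
    omega
  have hb0 : b ≠ 0 := by
    rintro rfl
    omega
  have hpb : ¬ p ∣ b := by
    intro h
    have h1 : p ∣ Nat.gcd b d := Nat.dvd_gcd h hpd
    rw [Nat.Coprime.gcd_eq_one hc] at h1
    exact hp.one_lt.ne' (Nat.dvd_one.1 h1)
  rw [hab, Nat.factorization_mul hd0 hb0, Finsupp.add_apply,
    Nat.factorization_eq_zero_of_not_dvd hpb, add_zero]

theorem expo {r n j k : ℕ} (hr : 2 ≤ r) {F : Finset (Finset ℕ)} (hF : ∀ S ∈ F, ∀ x ∈ S, x < n)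
    (hj : ∀ S ∈ F, S.card = j) (h1 : 1 ≤ j) (hjk : j ≤ k) (hf : SFree r F) :
    ∃ A : Finset ℕ, A.card = F.card * (k - 1).choose (j - 1) ∧
      (∀ a ∈ A, 0 < a ∧ a.primeFactorsList.length = k ∧ a ≤ (Nat.nth Nat.Prime n) ^ k) ∧
      GFree r A := by
  classical
  obtain ⟨A, hA⟩ : ∃ A : Finset ℕ,
      A = (F.sigma fun S => S.finsuppAntidiag (k - j)).image (fun p => pexp p.1 p.2) := ⟨_, rfl⟩
  have hmem : ∀ a, a ∈ A ↔ ∃ S ∈ F, ∃ e ∈ S.finsuppAntidiag (k - j), pexp S e = a := by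
    intro a
    rw [hA, mem_image]
    constructor
    · rintro ⟨⟨S, e⟩, h, h'⟩
      obtain ⟨h2, h3⟩ := mem_sigma.1 h
      exact ⟨S, h2, e, h3, h'⟩
    · rintro ⟨S, hS, e, he, h'⟩
      exact ⟨⟨S, e⟩, mem_sigma.2 ⟨hS, he⟩, h'⟩
  have hsum : ∀ S ∈ F, ∀ e ∈ S.finsuppAntidiag (k - j), ∑ x ∈ S, (e x + 1) = k := by
    intro S hS e he
    have h2 := (mem_finsuppAntidiag.1 he).1
    rw [sum_add_distrib, sum_const, smul_eq_mul, mul_one, hj S hS]
    have h3 : ∑ x ∈ S, e x = k - j := h2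
    omega
  refine ⟨A, ?_, ?_, ?_⟩
  · rw [hA, card_image_of_injOn, card_sigma]
    · have h2 : ∀ S ∈ F, (S.finsuppAntidiag (k - j)).card = (k - 1).choose (j - 1) := by
        intro S hS
        rw [card_finsuppAntidiag_nat_eq_choose, hj S hS]
        have h3 : j + (k - j) - 1 = k - 1 := by omega
        rw [h3]
        have h4 : k - 1 = (k - j) + (j - 1) := by omega
        exact Nat.choose_symm_of_eq_add h4
      rw [sum_congr rfl h2, sum_const, smul_eq_mul]
    · rintro ⟨S, e⟩ h ⟨S', e'⟩ h' heq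
      obtain ⟨-, h3⟩ := mem_sigma.1 (mem_coe.1 h)
      obtain ⟨-, h3'⟩ := mem_sigma.1 (mem_coe.1 h')
      obtain ⟨h4, h5⟩ := expo_inj (mem_finsuppAntidiag.1 h3).2 (mem_finsuppAntidiag.1 h3').2 heq
      simp only at h4 h5
      rw [h4, h5]
  · intro a ha
    obtain ⟨S, hS, e, he, rfl⟩ := (hmem a).1 ha
    refine ⟨expo_pos S e, ?_, ?_⟩
    · rw [expo_len, hsum S hS e he]
    · have h2 := expo_le (hF S hS) e
      rw [hsum S hS e he] at h2
      exact h2
  · rintro ⟨T, hTA, hTr, d, hd, hgcd, hker⟩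
    obtain ⟨sup, hsup⟩ : ∃ sup : ℕ → Finset ℕ,
        ∀ a x, x ∈ sup a ↔ x < n ∧ Nat.nth Nat.Prime x ∣ a :=
      ⟨fun a => (range n).filter fun x => Nat.nth Nat.Prime x ∣ a, fun a x => by
        rw [mem_filter, mem_range]⟩
    have hsupS : ∀ S ∈ F, ∀ e : ℕ →₀ ℕ, sup (pexp S e) = S := by
      intro S hS e
      ext x
      rw [hsup, expo_dvd_iff]
      exact ⟨fun h => h.2, fun h => ⟨hF S hS x h, h⟩⟩
    have hTpos : ∀ a ∈ T, 0 < a := by
      intro a ha
      obtain ⟨S, hS, e, he, rfl⟩ := (hmem a).1 (hTA ha)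
      exact expo_pos S e
    have hprime : ∀ a ∈ T, ∀ p : ℕ, p.Prime → p ∣ a → ∃ x ∈ sup a, p = Nat.nth Nat.Prime x := by
      intro a ha p hp hpa
      obtain ⟨S, hS, e, he, rfl⟩ := (hmem a).1 (hTA ha)
      obtain ⟨x, hx, hpx⟩ := expo_dvd hp hpa
      exact ⟨x, by rw [hsupS S hS e]; exact hx, hpx⟩
    have hmemG : ∀ a ∈ T, sup a ∈ F := by
      intro a ha
      obtain ⟨S, hS, e, he, rfl⟩ := (hmem a).1 (hTA ha)
      rw [hsupS S hS e]
      exact hS
    have htr : ∀ a ∈ T, ∀ a' ∈ T, sup a = sup a' → ∀ p : ℕ, p.Prime → p ∣ a → p ∣ a' := by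
      intro a ha a' ha' h p hp hpa
      obtain ⟨x, hx, hpx⟩ := hprime a ha p hp hpa
      rw [h, hsup] at hx
      rw [hpx]
      exact hx.2
    have hinj : ∀ a ∈ T, ∀ a' ∈ T, sup a = sup a' → a = a' := by
      intro a ha a' ha' h
      by_contra hne
      apply hne
      have hg := hgcd a ha a' ha' hne
      obtain ⟨b, hb, hbc⟩ := hker a ha
      obtain ⟨b', hb', hbc'⟩ := hker a' ha'
      refine Nat.eq_of_factorization_eq (hTpos a ha).ne' (hTpos a' ha').ne' fun p => ?_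
      by_cases hp : p.Prime
      · by_cases hpa : p ∣ a
        · have hpa' : p ∣ a' := htr a ha a' ha' h p hp hpa
          have hpd : p ∣ d := by
            rw [← hg]
            exact Nat.dvd_gcd hpa hpa'
          rw [expo_ker (hTpos a ha) hb hbc hp hpd, expo_ker (hTpos a' ha') hb' hbc' hp hpd]
        · have hpa' : ¬ p ∣ a' := fun h' => hpa (htr a' ha' a ha h.symm p hp h')
          rw [Nat.factorization_eq_zero_of_not_dvd hpa, Nat.factorization_eq_zero_of_not_dvd hpa']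
      · rw [Nat.factorization_eq_zero_of_not_prime a hp, Nat.factorization_eq_zero_of_not_prime a' hp]
    refine hf ⟨T.image sup, ?_, ?_, sup d, ?_⟩
    · intro S hS
      obtain ⟨a, ha, rfl⟩ := mem_image.1 hS
      exact hmemG a ha
    · rw [card_image_of_injOn (fun a ha a' ha' h => hinj a (mem_coe.1 ha) a' (mem_coe.1 ha') h), hTr]
    · intro S hS S' hS' hne
      obtain ⟨a, ha, rfl⟩ := mem_image.1 hS
      obtain ⟨a', ha', rfl⟩ := mem_image.1 hS'
      have haa : a ≠ a' := fun h => hne (by rw [h])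
      ext x
      rw [mem_inter, hsup, hsup, hsup, ← hgcd a ha a' ha' haa, Nat.dvd_gcd_iff]
      constructor
      · rintro ⟨⟨h2, h3⟩, -, h4⟩
        exact ⟨h2, h3, h4⟩
      · rintro ⟨h2, h3, h4⟩
        exact ⟨⟨h2, h3⟩, h2, h4⟩

end Pool.Agent.Helper90.SharpEq
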