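import Pool.Agent.Helper90.SharpEq.Defs

/-!
Staircases.
-/

open Finset

namespace Pool.Agent.Helper90.SharpEq

open Pool.Agent.Helper10.GcdSun

/-- the staircase of an integer -/
def stair (a : ℕ) : Finset ℕ :=
  a.primeFactors.biUnion (fun p => (range (a.factorization p)).image (fun i => Nat.pair p i))

private theorem mem_stair {a p i : ℕ} : Nat.pair p i ∈ stair a ↔ i < a.factorization p := by
  unfold stair
  rw [mem_biUnion]
  constructor
  · rintro ⟨q, _, h⟩
    obtain ⟨j, hj, h2⟩ := mem_image.1 h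
    obtain ⟨rfl, rfl⟩ := Nat.pair_eq_pair.1 h2
    exact mem_range.1 hj
  · intro h
    refine ⟨p, ?_, mem_image.2 ⟨i, mem_range.2 h, rfl⟩⟩
    rw [← Nat.support_factorization, Finsupp.mem_support_iff]
    omega

private theorem mem_stair' {a x : ℕ} :
    x ∈ stair a ↔ x.unpair.2 < a.factorization x.unpair.1 := by
  rw [← mem_stair, Nat.pair_unpair]

private theorem card_stair (a : ℕ) : (stair a).card = a.primeFactorsList.length := by
  unfold stair
  rw [card_biUnion]
  · rw [← ArithmeticFunction.cardFactors_apply, ArithmeticFunction.cardFactors_eq_sum_factorization]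
    refine sum_congr rfl fun p _ => ?_
    rw [card_image_of_injective, card_range]
    intro i j h
    exact (Nat.pair_eq_pair.1 h).2
  · intro p _ q _ hpq
    show Disjoint _ _
    rw [disjoint_left]
    intro x hx hx'
    obtain ⟨i, _, rfl⟩ := mem_image.1 hx
    obtain ⟨j, _, h⟩ := mem_image.1 hx'
    exact hpq (Nat.pair_eq_pair.1 h).1.symm

private theorem stair_inj {a b : ℕ} (ha : a ≠ 0) (hb : b ≠ 0) (h : stair a = stair b) :
    a = b := by
  refine Nat.eq_of_factorization_eq ha hb fun p => ?_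
  have h1 : ∀ i, i < a.factorization p ↔ i < b.factorization p := fun i => by
    rw [← mem_stair, ← mem_stair, h]
  have h2 := h1 (a.factorization p)
  have h3 := h1 (b.factorization p)
  omega

private theorem stair_inter {a b : ℕ} (ha : a ≠ 0) (hb : b ≠ 0) :
    stair a ∩ stair b = stair (Nat.gcd a b) := by
  ext x
  rw [mem_inter, mem_stair', mem_stair', mem_stair', Nat.factorization_gcd ha hb,
    Finsupp.inf_apply, lt_inf_iff]

theorem pfree_bound {r k : ℕ} {M : ℝ} (h : SetBound r k M) (A : Finset ℕ)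
    (hA : ∀ a ∈ A, 0 < a ∧ a.primeFactorsList.length = k) (hf : PFree r A) :
    (A.card : ℝ) ≤ M := by
  classical
  have hinj : ∀ a ∈ A, ∀ b ∈ A, stair a = stair b → a = b := fun a ha b hb hab =>
    stair_inj (hA a ha).1.ne' (hA b hb).1.ne' hab
  have h1 := h (A.image stair) ?_ ?_
  · rwa [card_image_of_injOn (fun a ha b hb hab => hinj a ha b hb hab)] at h1
  · intro S hS
    obtain ⟨a, ha, rfl⟩ := mem_image.1 hS
    rw [card_stair, (hA a ha).2]
  · rintro ⟨G, hG, hGcard, K, hK⟩
    set S := A.filter (fun a => stair a ∈ G) with hS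
    have hSA : ∀ a ∈ S, a ∈ A := fun a ha => (mem_filter.1 ha).1
    have hSG : ∀ a ∈ S, stair a ∈ G := fun a ha => (mem_filter.1 ha).2
    have hGim : G = S.image stair := by
      ext T
      constructor
      · intro hT
        obtain ⟨a, ha, rfl⟩ := mem_image.1 (hG hT)
        exact mem_image.2 ⟨a, mem_filter.2 ⟨ha, hT⟩, rfl⟩
      · intro hT
        obtain ⟨a, ha, rfl⟩ := mem_image.1 hT
        exact hSG a ha
    have hScard : S.card = r := by
      rw [← hGcard, hGim, card_image_of_injOn]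
      intro a ha b hb hab
      exact hinj a (hSA a ha) b (hSA b hb) hab
    refine hf ⟨S, fun a ha => hSA a ha, hScard, ?_⟩
    have hgcd : ∀ a ∈ S, ∀ b ∈ S, a ≠ b → stair (Nat.gcd a b) = K := by
      intro a ha b hb hab
      rw [← stair_inter (hA a (hSA a ha)).1.ne' (hA b (hSA b hb)).1.ne']
      exact hK _ (hSG a ha) _ (hSG b hb) fun hc => hab (hinj a (hSA a ha) b (hSA b hb) hc)
    by_cases hex : ∃ a ∈ S, ∃ b ∈ S, a ≠ b
    · obtain ⟨a0, ha0, b0, hb0, hab0⟩ := hex
      refine ⟨Nat.gcd a0 b0, fun a ha b hb hab => ?_⟩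
      refine stair_inj (Nat.gcd_ne_zero_left (hA a (hSA a ha)).1.ne')
        (Nat.gcd_ne_zero_left (hA a0 (hSA a0 ha0)).1.ne') ?_
      rw [hgcd a ha b hb hab, hgcd a0 ha0 b0 hb0 hab0]
    · exact ⟨0, fun a ha b hb hab => absurd ⟨a, ha, b, hb, hab⟩ hex⟩

end Pool.Agent.Helper90.SharpEq
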