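import Pool.Agent.Helper90.SharpEq.Split
import Pool.Agent.Helper90.SharpEq.Stair

/-!
The rough parts for a fixed smooth part.
-/

open Finset

namespace Pool.Agent.Helper90.SharpEq

open Pool.Agent.Helper10.GcdSun

private theorem Fib_sm_ne (y a : ℕ) : sm y a ≠ 0 := by
  unfold sm
  refine Finset.prod_ne_zero_iff.2 fun p hp => ?_
  exact pow_ne_zero _ (Nat.prime_of_mem_primeFactors (Finset.mem_filter.1 hp).1).ne_zero

private theorem Fib_coprime (y : ℕ) {a : ℕ} (ha : 0 < a) : Nat.Coprime (a / sm y a) (sm y a) := by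
  have hd := sm_dvd y ha
  have hs := Fib_sm_ne y a
  have hne : a / sm y a ≠ 0 := (Nat.div_pos (Nat.le_of_dvd ha hd) (Nat.pos_of_ne_zero hs)).ne'
  rw [Nat.coprime_iff_gcd_eq_one]
  by_contra hg
  obtain ⟨q, hq, hqd⟩ := Nat.exists_prime_and_dvd hg
  have h1 : q ∣ a / sm y a := hqd.trans (Nat.gcd_dvd_left _ _)
  have h2 : q ∣ sm y a := hqd.trans (Nat.gcd_dvd_right _ _)
  have h3 := (hq.dvd_iff_one_le_factorization hs).1 h2
  have h4 := (hq.dvd_iff_one_le_factorization hne).1 h1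
  rw [sm_fact] at h3
  by_cases hqy : q ≤ y
  · rw [Nat.factorization_div hd, Finsupp.tsub_apply, sm_fact, if_pos hqy, Nat.sub_self] at h4
    omega
  · rw [if_neg hqy] at h3
    omega

private theorem Fib_main {r y s k : ℕ} {M : ℝ} (A : Finset ℕ)
    (hpos : ∀ a ∈ A, 0 < a)
    (h : ∀ B : Finset ℕ, (∀ b ∈ B, 0 < b ∧ b.primeFactorsList.length = k) →
      (∀ b ∈ B, 0 < s ∧ Nat.Coprime b s ∧ s * b ∈ A) → (B.card : ℝ) ≤ M) :
    ((A.filter (fun a => sm y a = s ∧
      (a / sm y a).primeFactorsList.length = k)).card : ℝ) ≤ M := by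
  classical
  set F := A.filter (fun a => sm y a = s ∧ (a / sm y a).primeFactorsList.length = k) with hF
  have hmul : ∀ a ∈ F, s * (a / s) = a := by
    intro a ha
    obtain ⟨haA, has, _⟩ := Finset.mem_filter.1 ha
    have hd := sm_dvd y (hpos a haA)
    rw [has] at hd
    exact Nat.mul_div_cancel' hd
  have hcard : (F.image (fun a => a / s)).card = F.card := by
    refine Finset.card_image_of_injOn fun a ha b hb hab => ?_
    have h1 : a / s = b / s := hab
    rw [← hmul a ha, ← hmul b hb, h1]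
  rw [← hcard]
  refine h _ ?_ ?_
  · intro b hb
    obtain ⟨a, ha, rfl⟩ := Finset.mem_image.1 hb
    obtain ⟨haA, has, hak⟩ := Finset.mem_filter.1 ha
    rw [has] at hak
    refine ⟨?_, hak⟩
    have h1 := hmul a ha
    have h2 := hpos a haA
    rcases Nat.eq_zero_or_pos (a / s) with h3 | h3
    · rw [h3, mul_zero] at h1
      omega
    · exact h3
  · intro b hb
    obtain ⟨a, ha, rfl⟩ := Finset.mem_image.1 hb
    obtain ⟨haA, has, hak⟩ := Finset.mem_filter.1 ha
    refine ⟨?_, ?_, ?_⟩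
    · rw [← has]
      exact Nat.pos_of_ne_zero (Fib_sm_ne y a)
    · have h1 := Fib_coprime y (hpos a haA)
      rwa [has] at h1
    · rw [hmul a ha]
      exact haA

theorem gfib {r y s k : ℕ} {M : ℝ} (h : GcdBound r k M) (A : Finset ℕ)
    (hpos : ∀ a ∈ A, 0 < a) (hf : GFree r A) :
    ((A.filter (fun a => sm y a = s ∧
      (a / sm y a).primeFactorsList.length = k)).card : ℝ) ≤ M := by
  classical
  refine Fib_main (r := r) A hpos fun B hB hBs => h B hB ?_
  rintro ⟨S, hSB, hSr, d, hd, hgcd, hco⟩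
  rcases S.eq_empty_or_nonempty with hS0 | ⟨b0, hb0⟩
  · subst hS0
    exact hf ⟨∅, Finset.empty_subset _, hSr, 1, one_pos, by simp, by simp⟩
  have hs : 0 < s := (hBs b0 (hSB hb0)).1
  refine hf ⟨S.image (fun b => s * b), ?_, ?_, s * d, Nat.mul_pos hs hd, ?_, ?_⟩
  · intro a ha
    obtain ⟨b, hb, rfl⟩ := Finset.mem_image.1 ha
    exact (hBs b (hSB hb)).2.2
  · rw [← hSr]
    exact Finset.card_image_of_injOn fun a _ b _ hab => Nat.eq_of_mul_eq_mul_left hs hab
  · intro a ha a' ha' hne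
    obtain ⟨b, hb, rfl⟩ := Finset.mem_image.1 ha
    obtain ⟨b', hb', rfl⟩ := Finset.mem_image.1 ha'
    have hne2 : b ≠ b' := fun h => hne (by rw [h])
    rw [Nat.gcd_mul_left, hgcd b hb b' hb' hne2]
  · intro a ha
    obtain ⟨b, hb, rfl⟩ := Finset.mem_image.1 ha
    obtain ⟨c, hc, hcd⟩ := hco b hb
    refine ⟨c, by rw [hc, mul_assoc], ?_⟩
    have h1 : Nat.Coprime c s := Nat.Coprime.coprime_dvd_left ⟨d, by rw [hc, mul_comm]⟩
      (hBs b (hSB hb)).2.1
    exact Nat.Coprime.mul_right h1 hcd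

theorem pfib {r y s k : ℕ} {M : ℝ} (h : SetBound r k M) (A : Finset ℕ)
    (hpos : ∀ a ∈ A, 0 < a) (hf : PFree r A) :
    ((A.filter (fun a => sm y a = s ∧
      (a / sm y a).primeFactorsList.length = k)).card : ℝ) ≤ M := by
  classical
  refine Fib_main (r := r) A hpos fun B hB hBs => pfree_bound h B hB ?_
  rintro ⟨S, hSB, hSr, d, hgcd⟩
  rcases S.eq_empty_or_nonempty with hS0 | ⟨b0, hb0⟩
  · subst hS0
    exact hf ⟨∅, Finset.empty_subset _, hSr, 1, by simp⟩
  have hs : 0 < s := (hBs b0 (hSB hb0)).1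
  refine hf ⟨S.image (fun b => s * b), ?_, ?_, s * d, ?_⟩
  · intro a ha
    obtain ⟨b, hb, rfl⟩ := Finset.mem_image.1 ha
    exact (hBs b (hSB hb)).2.2
  · rw [← hSr]
    exact Finset.card_image_of_injOn fun a _ b _ hab => Nat.eq_of_mul_eq_mul_left hs hab
  · intro a ha a' ha' hne
    obtain ⟨b, hb, rfl⟩ := Finset.mem_image.1 ha
    obtain ⟨b', hb', rfl⟩ := Finset.mem_image.1 ha'
    have hne2 : b ≠ b' := fun h => hne (by rw [h])
    rw [Nat.gcd_mul_left, hgcd b hb b' hb' hne2]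

end Pool.Agent.Helper90.SharpEq
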