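import Mathlib

/-!
Asymptotics, upper bound.
-/

open Finset

namespace Pool.Agent.Helper90.SharpEq

/-- the thresholds for `L = log N` -/
private theorem Up_ev {ε η : ℝ} (hε : 0 < ε) (hη : 0 < η) : ∃ L₀ : ℝ, ∀ L : ℝ, L₀ ≤ L →
    4 ≤ L ∧ Real.log 2 ≤ η * Real.log L ∧ 2 * Real.log L ^ 2 ≤ ε / 4 * L ^ η := by
  have h1 := (isLittleO_log_rpow_atTop (half_pos hη)).def (c := Real.sqrt (ε / 8)) (Real.sqrt_pos.2 (by positivity))
  obtain ⟨L1, hL1⟩ := Filter.eventually_atTop.1 h1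
  refine ⟨max (max 4 L1) (Real.exp (Real.log 2 / η)), fun L hL => ?_⟩
  have h4 : 4 ≤ L := ((le_max_left _ _).trans (le_max_left _ _)).trans hL
  have hLL1 : L1 ≤ L := ((le_max_right _ _).trans (le_max_left _ _)).trans hL
  have hLe : Real.exp (Real.log 2 / η) ≤ L := (le_max_right _ _).trans hL
  have hL0 : 0 < L := by linarith
  refine ⟨h4, ?_, ?_⟩
  · have h2 := Real.log_le_log (Real.exp_pos _) hLe
    rw [Real.log_exp, div_le_iff₀ hη] at h2
    linarith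
  · have h2 := hL1 L hLL1
    have h3 : 0 ≤ Real.log L := Real.log_nonneg (by linarith)
    have h5 : 0 ≤ L ^ (η / 2) := Real.rpow_nonneg hL0.le _
    rw [Real.norm_eq_abs, abs_of_nonneg h3, Real.norm_eq_abs, abs_of_nonneg h5] at h2
    have h6 : Real.log L ^ 2 ≤ (Real.sqrt (ε / 8) * L ^ (η / 2)) ^ 2 := pow_le_pow_left₀ h3 h2 2
    rw [mul_pow, Real.sq_sqrt (by positivity)] at h6
    have h7 : (L ^ (η / 2)) ^ 2 = L ^ η := by
      rw [← Real.rpow_natCast, ← Real.rpow_mul hL0.le]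
      congr 1
      push_cast
      ring
    rw [h7] at h6
    linarith

/-- the inequality between the logarithms -/
private theorem Up_main {a ε : ℝ} (ha : 0 ≤ a) (hε : 0 < ε) : ∃ L₀ : ℝ, ∀ L : ℝ, L₀ ≤ L → 4 ≤ L ∧
    ∃ y : ℕ, 2 ≤ y ∧ ∀ M : ℝ, 1 ≤ M → M ≤ 3 * L →
      y * Real.log M + Real.log M + a * (L / Real.log y) ≤ (a + ε) * (L / Real.log L) := by
  have hae : 0 < a + ε := by linarith
  obtain ⟨η, hηdef⟩ : ∃ η : ℝ, η = ε / (8 * (a + ε)) := ⟨_, rfl⟩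
  have hη : 0 < η := by rw [hηdef]; positivity
  have hη8 : η ≤ 1 / 8 := by
    rw [hηdef, div_le_iff₀ (by positivity)]
    linarith
  have hηa : a / (1 - 2 * η) ≤ a + ε / 2 := by
    rw [div_le_iff₀ (by linarith)]
    have h1 : η * (8 * (a + ε)) = ε := by
      rw [hηdef]
      field_simp
    nlinarith
  obtain ⟨L₀, hL₀⟩ := Up_ev hε hη
  refine ⟨L₀, fun L hL => ?_⟩
  obtain ⟨h4, h2, h3⟩ := hL₀ L hL
  have hL0 : 0 < L := by linarith
  have hl4 : Real.log 4 ≤ Real.log L := Real.log_le_log (by norm_num) h4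
  have hlog4 : Real.log 4 = 2 * Real.log 2 := by
    rw [show (4 : ℝ) = 2 ^ 2 by norm_num, Real.log_pow]
    norm_num
  have hlog2 := Real.log_two_gt_d9
  have hl1 : 1 < Real.log L := by linarith
  have hl3 : Real.log 3 ≤ Real.log L := Real.log_le_log (by norm_num) (by linarith)
  have hx2 : 2 ≤ L ^ (1 - η) := by
    have h5 : (4 : ℝ) ^ (1 / 2 : ℝ) ≤ L ^ (1 / 2 : ℝ) := Real.rpow_le_rpow (by norm_num) h4 (by norm_num)
    have h6 : L ^ (1 / 2 : ℝ) ≤ L ^ (1 - η) := Real.rpow_le_rpow_of_exponent_le (by linarith) (by linarith)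
    have h7 : (4 : ℝ) ^ (1 / 2 : ℝ) = 2 := by
      rw [show (4 : ℝ) = 2 ^ (2 : ℝ) by norm_num, ← Real.rpow_mul (by norm_num)]
      norm_num
    linarith
  refine ⟨h4, ⌊L ^ (1 - η)⌋₊, Nat.le_floor (by exact_mod_cast hx2), fun M hM1 hM3 => ?_⟩
  have hylo : L ^ (1 - η) / 2 ≤ (⌊L ^ (1 - η)⌋₊ : ℝ) := by
    have h5 := Nat.lt_floor_add_one (L ^ (1 - η))
    linarith
  have hyhi : (⌊L ^ (1 - η)⌋₊ : ℝ) ≤ L ^ (1 - η) := Nat.floor_le (by linarith)
  have hlogy : (1 - 2 * η) * Real.log L ≤ Real.log (⌊L ^ (1 - η)⌋₊ : ℝ) := by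
    have h5 := Real.log_le_log (by linarith) hylo
    rw [Real.log_div (by positivity) (by norm_num), Real.log_rpow hL0] at h5
    linarith
  have hlogM : Real.log M ≤ 2 * Real.log L := by
    have h5 := Real.log_le_log (by linarith) hM3
    rw [Real.log_mul (by norm_num) hL0.ne'] at h5
    linarith
  have hlogM0 : 0 ≤ Real.log M := Real.log_nonneg hM1
  -- the first two terms
  have hfirst : L ^ (1 - η) * Real.log M ≤ ε / 4 * (L / Real.log L) := by
    have h5 : L ^ (1 - η) * Real.log M ≤ L ^ (1 - η) * (2 * Real.log L) :=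
      mul_le_mul_of_nonneg_left hlogM (by linarith)
    refine h5.trans ?_
    rw [← mul_div_assoc, le_div_iff₀ (by linarith)]
    have h6 : L ^ (1 - η) * L ^ η = L := by
      rw [← Real.rpow_add hL0]
      have : 1 - η + η = 1 := by ring
      rw [this, Real.rpow_one]
    calc L ^ (1 - η) * (2 * Real.log L) * Real.log L = L ^ (1 - η) * (2 * Real.log L ^ 2) := by ring
      _ ≤ L ^ (1 - η) * (ε / 4 * L ^ η) := mul_le_mul_of_nonneg_left h3 (by linarith)
      _ = ε / 4 * (L ^ (1 - η) * L ^ η) := by ring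
      _ = ε / 4 * L := by rw [h6]
  have h5 : (⌊L ^ (1 - η)⌋₊ : ℝ) * Real.log M ≤ ε / 4 * (L / Real.log L) :=
    (mul_le_mul_of_nonneg_right hyhi hlogM0).trans hfirst
  have h6 : Real.log M ≤ ε / 4 * (L / Real.log L) := by
    refine le_trans ?_ hfirst
    nlinarith
  have h7 : a * (L / Real.log (⌊L ^ (1 - η)⌋₊ : ℝ)) ≤ (a + ε / 2) * (L / Real.log L) := by
    have h8 : L / Real.log (⌊L ^ (1 - η)⌋₊ : ℝ) ≤ L / ((1 - 2 * η) * Real.log L) :=
      div_le_div_of_nonneg_left hL0.le (mul_pos (by linarith) (by linarith)) hlogy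
    have h9 : a * (L / ((1 - 2 * η) * Real.log L)) = a / (1 - 2 * η) * (L / Real.log L) := by
      have h10 : 1 - 2 * η ≠ 0 := by linarith
      have h11 : Real.log L ≠ 0 := by linarith
      field_simp
    calc a * (L / Real.log (⌊L ^ (1 - η)⌋₊ : ℝ)) ≤ a * (L / ((1 - 2 * η) * Real.log L)) :=
          mul_le_mul_of_nonneg_left h8 ha
      _ = a / (1 - 2 * η) * (L / Real.log L) := h9
      _ ≤ (a + ε / 2) * (L / Real.log L) :=
          mul_le_mul_of_nonneg_right hηa (div_nonneg hL0.le (by linarith))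
  have h8 : (a + ε) * (L / Real.log L) = ε / 4 * (L / Real.log L) + ε / 4 * (L / Real.log L) +
      (a + ε / 2) * (L / Real.log L) := by ring
  rw [h8]
  linarith

theorem up {c : ℝ} (hc : 1 ≤ c) {ε : ℝ} (hε : 0 < ε) : ∃ N₀ : ℕ, ∀ N : ℕ, N₀ ≤ N →
    ∃ y : ℕ, 2 ≤ y ∧ ((Nat.log 2 N : ℝ) + 1) ^ y * ((Nat.log 2 N : ℝ) + 1) *
      c ^ (Real.log N / Real.log y) ≤
        (N : ℝ) ^ ((Real.log c + ε) / Real.log (Real.log N)) := by
  obtain ⟨L₀, hL₀⟩ := Up_main (Real.log_nonneg hc) hε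
  refine ⟨⌈Real.exp L₀⌉₊ + 1, fun N hN => ?_⟩
  have hNe : Real.exp L₀ ≤ (N : ℝ) := by
    have h1 : ⌈Real.exp L₀⌉₊ ≤ N := by omega
    exact (Nat.le_ceil _).trans (by exact_mod_cast h1)
  have hN0 : (0 : ℝ) < N := (Real.exp_pos _).trans_le hNe
  have hNn : N ≠ 0 := by
    intro h
    rw [h, Nat.cast_zero] at hN0
    exact lt_irrefl _ hN0
  have hL : L₀ ≤ Real.log N := by
    have h1 := Real.log_le_log (Real.exp_pos _) hNe
    rwa [Real.log_exp] at h1
  obtain ⟨h4, y, hy, hmain⟩ := hL₀ _ hL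
  refine ⟨y, hy, ?_⟩
  have hM1 : (1 : ℝ) ≤ (Nat.log 2 N : ℝ) + 1 := by
    have : (0 : ℝ) ≤ (Nat.log 2 N : ℝ) := Nat.cast_nonneg _
    linarith
  have hM3 : (Nat.log 2 N : ℝ) + 1 ≤ 3 * Real.log N := by
    have h1 : ((2 : ℝ)) ^ (Nat.log 2 N) ≤ (N : ℝ) := by exact_mod_cast Nat.pow_log_le_self 2 hNn
    have h2 := Real.log_le_log (by positivity) h1
    rw [Real.log_pow] at h2
    have h3 := Real.log_two_gt_d9
    have h5 : (0 : ℝ) ≤ (Nat.log 2 N : ℝ) := Nat.cast_nonneg _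
    nlinarith
  have h1 := hmain _ hM1 hM3
  have hM0 : (0 : ℝ) < (Nat.log 2 N : ℝ) + 1 := by linarith
  have hc0 : 0 < c := by linarith
  have hlhs : ((Nat.log 2 N : ℝ) + 1) ^ y * ((Nat.log 2 N : ℝ) + 1) * c ^ (Real.log N / Real.log y) =
      Real.exp (y * Real.log ((Nat.log 2 N : ℝ) + 1) + Real.log ((Nat.log 2 N : ℝ) + 1) +
        Real.log c * (Real.log N / Real.log y)) := by
    rw [Real.exp_add, Real.exp_add, Real.exp_log hM0, mul_comm (y : ℝ), Real.exp_mul, Real.exp_log hM0,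
      Real.rpow_natCast, Real.rpow_def_of_pos hc0]
  have hrhs : (N : ℝ) ^ ((Real.log c + ε) / Real.log (Real.log N)) =
      Real.exp ((Real.log c + ε) * (Real.log N / Real.log (Real.log N))) := by
    rw [Real.rpow_def_of_pos hN0]
    congr 1
    ring
  rw [hlhs, hrhs]
  exact Real.exp_le_exp.2 h1

end Pool.Agent.Helper90.SharpEq
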