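import Pool.Agent.Helper90.SharpEq.AtoB
import Pool.Agent.Helper90.SharpEq.Fib
import Pool.Agent.Helper90.SharpEq.Up
import Pool.Agent.Helper90.SharpEq.CtoA
import Pool.Agent.Helper90.SharpEq.DtoA

/-!
The sharp equivalence.
-/

open Finset

namespace Pool.Agent.Helper90.SharpEq

open Pool.Agent.Helper10.GcdSun

theorem atoc {r : ℕ} {c : ℝ} (hc : 1 ≤ c) (h : ∀ k, SetBound r k (c ^ k)) :
    ∀ ε : ℝ, 0 < ε → ∃ N₀ : ℕ, ∀ N : ℕ, N₀ ≤ N → ∀ A : Finset ℕ, A ⊆ Icc 1 N →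
      PFree r A → (A.card : ℝ) ≤ (N : ℝ) ^ ((Real.log c + ε) / Real.log (Real.log N)) := by
  intro ε hε
  obtain ⟨N₀, hN₀⟩ := up hc hε
  refine ⟨N₀ + 1, fun N hN A hA hf => ?_⟩
  obtain ⟨y, hy, hle⟩ := hN₀ N (by omega)
  refine (split (by omega) hy hc A hA fun s k => ?_).trans hle
  exact pfib (h k) A (fun a ha => (mem_Icc.1 (hA ha)).1) hf

theorem btod {r : ℕ} {c : ℝ} (hc : 1 ≤ c) (h : ∀ k, GcdBound r k ((1 + c) ^ k)) :
    ∀ ε : ℝ, 0 < ε → ∃ N₀ : ℕ, ∀ N : ℕ, N₀ ≤ N → ∀ A : Finset ℕ, A ⊆ Icc 1 N →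
      GFree r A → (A.card : ℝ) ≤
        (N : ℝ) ^ ((Real.log (1 + c) + ε) / Real.log (Real.log N)) := by
  intro ε hε
  have hc' : 1 ≤ 1 + c := by linarith
  obtain ⟨N₀, hN₀⟩ := up hc' hε
  refine ⟨N₀ + 1, fun N hN A hA hf => ?_⟩
  obtain ⟨y, hy, hle⟩ := hN₀ N (by omega)
  refine (split (by omega) hy hc' A hA fun s k => ?_).trans hle
  exact gfib (h k) A (fun a ha => (mem_Icc.1 (hA ha)).1) hf

/-- the sunflower conjecture for `r` with the constant `c` -/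
def Sun (r : ℕ) (c : ℝ) : Prop := ∀ k : ℕ, SetBound r k (c ^ k)

/-- Q1 for `r` with the constant `c` -/
def Gcd (r : ℕ) (c : ℝ) : Prop := ∀ k : ℕ, GcdBound r k (c ^ k)

/-- If `N` is large, then all subsets of `{1, ..., N}` with the property `P` have at most
`N ^ (C / log log N)` elements. -/
def UpTo (P : Finset ℕ → Prop) (C : ℝ) : Prop :=
  ∃ N₀ : ℕ, ∀ N : ℕ, N₀ ≤ N → ∀ A : Finset ℕ, A ⊆ Icc 1 N → P A →
    (A.card : ℝ) ≤ (N : ℝ) ^ (C / Real.log (Real.log N))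

theorem tfae {r : ℕ} (hr : 2 ≤ r) {c : ℝ} (hc : 1 ≤ c) : List.TFAE [
    Sun r c, Gcd r (1 + c),
    ∀ ε : ℝ, 0 < ε → UpTo (PFree r) (Real.log c + ε),
    ∀ ε : ℝ, 0 < ε → UpTo (GFree r) (Real.log (1 + c) + ε)] := by
  have hc0 : 0 < c := by linarith
  tfae_have 1 → 2 := fun h => gcd_of_set hr hc0 h
  tfae_have 2 → 1 := fun h => set_of_gcd hr hc0 h
  tfae_have 1 → 3 := fun h => atoc hc h
  tfae_have 2 → 4 := fun h => btod hc h
  tfae_have 3 → 1 := fun h => ctoa hr hc h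
  tfae_have 4 → 1 := fun h => dtoa hr hc h
  tfae_finish

theorem UpTo.mono {P : Finset ℕ → Prop} {C D : ℝ} (h : UpTo P C) (hCD : C ≤ D) : UpTo P D := by
  obtain ⟨N₀, h⟩ := h
  refine ⟨N₀ + 3, fun N hN A hA hP => (h N (by omega) A hA hP).trans ?_⟩
  have hN3 : (3:ℝ) ≤ N := by exact_mod_cast (show 3 ≤ N by omega)
  have h1 : 1 < Real.log N := by
    rw [Real.lt_log_iff_exp_lt (by linarith)]
    exact Real.exp_one_lt_d9.trans_le (by linarith)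
  have h2 : 0 < Real.log (Real.log N) := Real.log_pos h1
  refine Real.rpow_le_rpow_of_exponent_le (by linarith) ?_
  exact div_le_div_of_nonneg_right hCD h2.le

theorem Sun.mono {r : ℕ} {c d : ℝ} (hc : 0 ≤ c) (h : Sun r c) (hcd : c ≤ d) : Sun r d :=
  fun k F hF hf => (h k F hF hf).trans (pow_le_pow_left₀ hc hcd k)

theorem tfae' {r : ℕ} (hr : 2 ≤ r) : List.TFAE [
    ∃ c : ℝ, 0 < c ∧ Gcd r c, ∃ c : ℝ, 0 < c ∧ Sun r c,
    ∃ C : ℝ, UpTo (PFree r) C, ∃ C : ℝ, UpTo (GFree r) C] := by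
  have key : (∃ c : ℝ, 0 < c ∧ Sun r c) → ∃ c : ℝ, 1 ≤ c ∧ Sun r c := by
    rintro ⟨c, hc, h⟩
    exact ⟨max c 1, le_max_right _ _, h.mono hc.le (le_max_left _ _)⟩
  tfae_have 1 → 2 := by
    rintro ⟨c, hc, h⟩
    exact ⟨c, hc, fun k => setBound_of_gcdBound (h k)⟩
  tfae_have 2 → 1 := by
    intro h
    obtain ⟨c, hc, h⟩ := key h
    exact ⟨1 + c, by linarith, ((tfae hr hc).out 0 1).1 h⟩
  tfae_have 2 → 3 := by
    intro h
    obtain ⟨c, hc, h⟩ := key h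
    have h3 : ∀ ε : ℝ, 0 < ε → UpTo (PFree r) (Real.log c + ε) := ((tfae hr hc).out 0 2).1 h
    exact ⟨_, h3 1 one_pos⟩
  tfae_have 2 → 4 := by
    intro h
    obtain ⟨c, hc, h⟩ := key h
    have h3 : ∀ ε : ℝ, 0 < ε → UpTo (GFree r) (Real.log (1 + c) + ε) :=
      ((tfae hr hc).out 0 3).1 h
    exact ⟨_, h3 1 one_pos⟩
  tfae_have 3 → 2 := by
    rintro ⟨C, h⟩
    have hc : 1 ≤ Real.exp (max C 0) := Real.one_le_exp (le_max_right _ _)
    refine ⟨Real.exp (max C 0), Real.exp_pos _, ((tfae hr hc).out 0 2).2 fun ε hε => ?_⟩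
    refine h.mono ?_
    rw [Real.log_exp]
    linarith [le_max_left C 0]
  tfae_have 4 → 2 := by
    rintro ⟨C, h⟩
    have hc : 1 ≤ Real.exp (max C 0) := Real.one_le_exp (le_max_right _ _)
    refine ⟨Real.exp (max C 0), Real.exp_pos _, ((tfae hr hc).out 0 3).2 fun ε hε => ?_⟩
    refine h.mono ?_
    have h1 : max C 0 ≤ Real.log (1 + Real.exp (max C 0)) := by
      rw [Real.le_log_iff_exp_le (by positivity)]
      linarith
    linarith [le_max_left C 0]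
  tfae_finish

end Pool.Agent.Helper90.SharpEq
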