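import Mathlib

/-!
An upper bound for the `n`-th prime.
-/

open Finset

namespace Pool.Agent.Helper90.SharpEq

open Filter in
private theorem NthP_ev {δ : ℝ} (hδ : 0 < δ) : ∀ᶠ x : ℝ in atTop,
    x ^ (1 / (1 + δ)) * Real.log x + Real.log (x + 2) < (x - 1) * Real.log 2 := by
  have hl2 : 0 < Real.log 2 := Real.log_pos (by norm_num)
  have ha : 0 < 1 - 1 / (1 + δ) := by
    have h1 : 1 / (1 + δ) < 1 := by
      rw [div_lt_one (by linarith)]
      linarith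
    linarith
  have h1 := (isLittleO_log_rpow_atTop ha).bound (show (0 : ℝ) < Real.log 2 / 4 by positivity)
  have h2 := (isLittleO_log_rpow_atTop (show (0 : ℝ) < 1 by norm_num)).bound
    (show (0 : ℝ) < Real.log 2 / 8 by positivity)
  filter_upwards [h1, h2, eventually_gt_atTop 4] with x hx1 hx2 hx4
  have hx0 : 0 < x := by linarith
  have hlog : 0 ≤ Real.log x := Real.log_nonneg (by linarith)
  rw [Real.norm_of_nonneg hlog, Real.norm_of_nonneg (by positivity)] at hx1 hx2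
  rw [Real.rpow_one] at hx2
  have h3 : x ^ (1 / (1 + δ)) * Real.log x ≤ Real.log 2 / 4 * x := by
    calc x ^ (1 / (1 + δ)) * Real.log x
        ≤ x ^ (1 / (1 + δ)) * (Real.log 2 / 4 * x ^ (1 - 1 / (1 + δ))) := by
          gcongr
      _ = Real.log 2 / 4 * (x ^ (1 / (1 + δ)) * x ^ (1 - 1 / (1 + δ))) := by ring
      _ = Real.log 2 / 4 * x := by
          rw [← Real.rpow_add hx0]
          congr 1
          rw [show 1 / (1 + δ) + (1 - 1 / (1 + δ)) = 1 by ring, Real.rpow_one]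
  have h4 : Real.log (x + 2) ≤ 2 * Real.log x := by
    have h5 : Real.log (x + 2) ≤ Real.log (x ^ 2) := by
      refine Real.log_le_log (by linarith) ?_
      nlinarith
    rw [Real.log_pow] at h5
    exact_mod_cast h5
  nlinarith

theorem nth_prime_le {δ : ℝ} (hδ : 0 < δ) : ∃ n₀ : ℕ, ∀ n : ℕ, n₀ ≤ n →
    (Nat.nth Nat.Prime n : ℝ) ≤ (n : ℝ) ^ (1 + δ) := by
  have h2 : Filter.Tendsto (fun n : ℕ => (n : ℝ) ^ (1 + δ)) Filter.atTop Filter.atTop :=
    (tendsto_rpow_atTop (by linarith)).comp tendsto_natCast_atTop_atTop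
  have h3 := h2.eventually ((NthP_ev hδ).and (Filter.eventually_gt_atTop 1))
  obtain ⟨n₀, hn⟩ := Filter.eventually_atTop.1 h3
  refine ⟨n₀, fun n hn0 => ?_⟩
  obtain ⟨h4, h5⟩ := hn n hn0
  have h6 : ((n : ℝ) ^ (1 + δ)) ^ (1 / (1 + δ)) = n := by
    rw [← Real.rpow_mul (by positivity), mul_one_div_cancel (by linarith), Real.rpow_one]
  rw [h6] at h4
  have h7 := Chebyshev.pi_ge' h5
  have h8 : (n : ℝ) < (Nat.primeCounting ⌊(n : ℝ) ^ (1 + δ)⌋₊ : ℝ) :=
    lt_of_lt_of_le ((lt_div_iff₀ (Real.log_pos h5)).2 (by linarith)) h7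
  have h9 : n < Nat.primeCounting ⌊(n : ℝ) ^ (1 + δ)⌋₊ := by exact_mod_cast h8
  have h10 : Nat.nth Nat.Prime n < ⌊(n : ℝ) ^ (1 + δ)⌋₊ + 1 := Nat.nth_lt_of_lt_count h9
  calc (Nat.nth Nat.Prime n : ℝ) ≤ (⌊(n : ℝ) ^ (1 + δ)⌋₊ : ℝ) := by
        exact_mod_cast Nat.lt_succ_iff.1 h10
    _ ≤ (n : ℝ) ^ (1 + δ) := Nat.floor_le (by positivity)

end Pool.Agent.Helper90.SharpEq
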