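import Mathlib
import Pool.Agent.Helper10.GcdSun.Equiv

/-!
Products of families of sets without sunflowers.
-/

open Finset

namespace Pool.Agent.Helper90.SharpEq

open Pool.Agent.Helper10.GcdSun

/-- no `r` members of `F` form a sunflower -/
def SFree (r : ℕ) (F : Finset (Finset ℕ)) : Prop :=
  ¬ ∃ G : Finset (Finset ℕ), G ⊆ F ∧ G.card = r ∧ IsSunflower G

/-- `F` is an antichain -/
def Anti (F : Finset (Finset ℕ)) : Prop := ∀ S ∈ F, ∀ T ∈ F, S ⊆ T → S = T

/-- all unions of a member of `F` and a member of `G` -/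
def jn (F G : Finset (Finset ℕ)) : Finset (Finset ℕ) := (F ×ˢ G).image (fun p => p.1 ∪ p.2)

/-- the translate of a family -/
def shift (a : ℕ) (F : Finset (Finset ℕ)) : Finset (Finset ℕ) :=
  F.image (fun S => S.image (fun x => a + x))

/-- disjoint unions of `t` members of `F` -/
def pw (n : ℕ) (F : Finset (Finset ℕ)) : ℕ → Finset (Finset ℕ)
  | 0 => {∅}
  | t + 1 => jn (pw n F t) (shift (n * t) F)

theorem mem_jn {F G : Finset (Finset ℕ)} {X : Finset ℕ} :
    X ∈ jn F G ↔ ∃ S ∈ F, ∃ T ∈ G, S ∪ T = X := by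
  unfold jn
  rw [mem_image]
  constructor
  · rintro ⟨⟨S, T⟩, h, rfl⟩
    exact ⟨S, (mem_product.1 h).1, T, (mem_product.1 h).2, rfl⟩
  · rintro ⟨S, hS, T, hT, rfl⟩
    exact ⟨(S, T), mem_product.2 ⟨hS, hT⟩, rfl⟩

theorem mem_shift {a : ℕ} {F : Finset (Finset ℕ)} {X : Finset ℕ} :
    X ∈ shift a F ↔ ∃ S ∈ F, S.image (fun x => a + x) = X := by
  unfold shift
  rw [mem_image]

theorem img_inj (a : ℕ) : Function.Injective (fun S : Finset ℕ => S.image (fun x => a + x)) := by
  intro S T h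
  have h' : S.image (fun x => a + x) = T.image (fun x => a + x) := h
  ext x
  constructor
  · intro hx
    have : a + x ∈ T.image (fun x => a + x) := h' ▸ mem_image_of_mem _ hx
    obtain ⟨y, hy, hxy⟩ := mem_image.1 this
    have : y = x := by omega
    exact this ▸ hy
  · intro hx
    have : a + x ∈ S.image (fun x => a + x) := h' ▸ mem_image_of_mem _ hx
    obtain ⟨y, hy, hxy⟩ := mem_image.1 this
    have : y = x := by omega
    exact this ▸ hy

theorem filt_lo {m : ℕ} {S T : Finset ℕ} (hS : ∀ x ∈ S, x < m) (hT : ∀ x ∈ T, m ≤ x) :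
    (S ∪ T).filter (fun x => x < m) = S := by
  ext x
  rw [mem_filter, mem_union]
  constructor
  · rintro ⟨h | h, hx⟩
    · exact h
    · exact absurd (hT x h) (by omega)
  · intro h
    exact ⟨Or.inl h, hS x h⟩

theorem filt_hi {m : ℕ} {S T : Finset ℕ} (hS : ∀ x ∈ S, x < m) (hT : ∀ x ∈ T, m ≤ x) :
    (S ∪ T).filter (fun x => m ≤ x) = T := by
  ext x
  rw [mem_filter, mem_union]
  constructor
  · rintro ⟨h | h, hx⟩
    · exact absurd (hS x h) (by omega)
    · exact h
  · intro h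
    exact ⟨Or.inr h, hT x h⟩

/-- a coordinate of a sunflower is constant -/
theorem coord {r : ℕ} {F H : Finset (Finset ℕ)} (hF : Anti F) (hfree : SFree r F)
    (a : Finset ℕ → Finset ℕ) (ha : ∀ X ∈ H, a X ∈ F) (K : Finset ℕ)
    (hK : ∀ X ∈ H, ∀ Y ∈ H, X ≠ Y → a X ∩ a Y = K) (hH : H.card = r) :
    ∀ X ∈ H, ∀ Y ∈ H, a X = a Y := by
  classical
  by_cases hinj : ∀ X ∈ H, ∀ Y ∈ H, a X = a Y → X = Y
  · exfalso
    refine hfree ⟨H.image a, ?_, ?_, K, ?_⟩
    · intro S hS
      obtain ⟨X, hX, rfl⟩ := mem_image.1 hS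
      exact ha X hX
    · rw [card_image_of_injOn (fun X hX Y hY h => hinj X hX Y hY h), hH]
    · intro S hS T hT hST
      obtain ⟨X, hX, rfl⟩ := mem_image.1 hS
      obtain ⟨Y, hY, rfl⟩ := mem_image.1 hT
      exact hK X hX Y hY (fun h => hST (by rw [h]))
  · push Not at hinj
    obtain ⟨X, hX, Y, hY, hXY, hne⟩ := hinj
    have h1 : a X = K := by
      have := hK X hX Y hY hne
      rwa [hXY, inter_self, ← hXY] at this
    have h2 : ∀ Z ∈ H, a X = a Z := by
      intro Z hZ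
      by_cases hXZ : X = Z
      · rw [hXZ]
      · refine hF _ (ha X hX) _ (ha Z hZ) ?_
        have h3 := hK X hX Z hZ hXZ
        rw [← h1] at h3
        exact inter_eq_left.1 h3
    intro Z hZ W hW
    rw [← h2 Z hZ, ← h2 W hW]

theorem jn_free {r m : ℕ} (hr : 2 ≤ r) {F G : Finset (Finset ℕ)}
    (hFm : ∀ S ∈ F, ∀ x ∈ S, x < m) (hGm : ∀ S ∈ G, ∀ x ∈ S, m ≤ x)
    (hF : Anti F) (hG : Anti G) (hFf : SFree r F) (hGf : SFree r G) : SFree r (jn F G) := by
  classical
  rintro ⟨H, hH, hc, K, hK⟩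
  have hlo : ∀ X ∈ H, X.filter (fun x => x < m) ∈ F := by
    intro X hX
    obtain ⟨S, hS, T, hT, rfl⟩ := mem_jn.1 (hH hX)
    rwa [filt_lo (hFm S hS) (hGm T hT)]
  have hhi : ∀ X ∈ H, X.filter (fun x => m ≤ x) ∈ G := by
    intro X hX
    obtain ⟨S, hS, T, hT, rfl⟩ := mem_jn.1 (hH hX)
    rwa [filt_hi (hFm S hS) (hGm T hT)]
  have h1 := coord hF hFf (fun X => X.filter (fun x => x < m)) hlo
    (K.filter (fun x => x < m)) (fun X hX Y hY h => by
      show X.filter (fun x => x < m) ∩ Y.filter (fun x => x < m) = _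
      rw [← filter_inter_distrib, hK X hX Y hY h]) hc
  have h2 := coord hG hGf (fun X => X.filter (fun x => m ≤ x)) hhi
    (K.filter (fun x => m ≤ x)) (fun X hX Y hY h => by
      show X.filter (fun x => m ≤ x) ∩ Y.filter (fun x => m ≤ x) = _
      rw [← filter_inter_distrib, hK X hX Y hY h]) hc
  obtain ⟨X, hX, Y, hY, hne⟩ := one_lt_card.1 (show 1 < H.card by omega)
  apply hne
  have e1 : X.filter (fun x => x < m) = Y.filter (fun x => x < m) := h1 X hX Y hY
  have e2 : X.filter (fun x => m ≤ x) = Y.filter (fun x => m ≤ x) := h2 X hX Y hY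
  ext x
  by_cases hx : x < m
  · have := Finset.ext_iff.1 e1 x
    simp only [mem_filter, hx, and_true] at this
    exact this
  · have := Finset.ext_iff.1 e2 x
    simp only [mem_filter, not_lt.1 hx, and_true] at this
    exact this

theorem jn_anti {m : ℕ} {F G : Finset (Finset ℕ)}
    (hFm : ∀ S ∈ F, ∀ x ∈ S, x < m) (hGm : ∀ S ∈ G, ∀ x ∈ S, m ≤ x)
    (hF : Anti F) (hG : Anti G) : Anti (jn F G) := by
  intro X hX Y hY h
  obtain ⟨S, hS, T, hT, rfl⟩ := mem_jn.1 hX
  obtain ⟨S', hS', T', hT', rfl⟩ := mem_jn.1 hY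
  have h1 : S ⊆ S' := by
    have := filter_subset_filter (fun x => x < m) h
    rwa [filt_lo (hFm S hS) (hGm T hT), filt_lo (hFm S' hS') (hGm T' hT')] at this
  have h2 : T ⊆ T' := by
    have := filter_subset_filter (fun x => m ≤ x) h
    rwa [filt_hi (hFm S hS) (hGm T hT), filt_hi (hFm S' hS') (hGm T' hT')] at this
  rw [hF S hS S' hS' h1, hG T hT T' hT' h2]

theorem sum_jn {m : ℕ} {F G : Finset (Finset ℕ)}
    (hFm : ∀ S ∈ F, ∀ x ∈ S, x < m) (hGm : ∀ S ∈ G, ∀ x ∈ S, m ≤ x) (z : ℝ) :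
    ∑ X ∈ jn F G, z ^ X.card = (∑ S ∈ F, z ^ S.card) * ∑ T ∈ G, z ^ T.card := by
  classical
  unfold jn
  rw [sum_image, sum_product, sum_mul_sum]
  · refine sum_congr rfl fun S hS => sum_congr rfl fun T hT => ?_
    rw [← pow_add, card_union_of_disjoint]
    rw [disjoint_left]
    intro x hx hx'
    have h1 := hFm S hS x hx
    have h2 := hGm T hT x hx'
    omega
  · rintro ⟨S, T⟩ h ⟨S', T'⟩ h' hST
    have hST' : S ∪ T = S' ∪ T' := hST
    obtain ⟨hS, hT⟩ := mem_product.1 h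
    obtain ⟨hS', hT'⟩ := mem_product.1 h'
    have h1 := filt_lo (hFm S hS) (hGm T hT)
    have h2 := filt_hi (hFm S hS) (hGm T hT)
    rw [hST'] at h1 h2
    rw [filt_lo (hFm S' hS') (hGm T' hT')] at h1
    rw [filt_hi (hFm S' hS') (hGm T' hT')] at h2
    rw [h1, h2]

theorem shift_free {r a : ℕ} {F : Finset (Finset ℕ)} (hF : SFree r F) : SFree r (shift a F) := by
  classical
  rintro ⟨H, hH, hc, K, hK⟩
  refine hF ⟨F.filter (fun S => S.image (fun x => a + x) ∈ H), filter_subset _ _, ?_,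
    ((F.biUnion id).filter (fun x => a + x ∈ K)), ?_⟩
  · rw [← hc, ← card_image_of_injective _ (img_inj a)]
    congr 1
    ext X
    constructor
    · intro hX
      obtain ⟨S, hS, rfl⟩ := mem_image.1 hX
      exact (mem_filter.1 hS).2
    · intro hX
      obtain ⟨S, hS, rfl⟩ := mem_shift.1 (hH hX)
      exact mem_image.2 ⟨S, mem_filter.2 ⟨hS, hX⟩, rfl⟩
  · intro S hS T hT hST
    have h := hK _ (mem_filter.1 hS).2 _ (mem_filter.1 hT).2 (fun h => hST (img_inj a h))
    ext x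
    rw [mem_inter, mem_filter, ← h, mem_inter, mem_biUnion]
    constructor
    · rintro ⟨h1, h2⟩
      exact ⟨⟨S, (mem_filter.1 hS).1, h1⟩, mem_image_of_mem _ h1, mem_image_of_mem _ h2⟩
    · rintro ⟨-, h1, h2⟩
      obtain ⟨y, hy, e⟩ := mem_image.1 h1
      obtain ⟨z, hz, e'⟩ := mem_image.1 h2
      have e1 : y = x := by omega
      have e2 : z = x := by omega
      exact ⟨e1 ▸ hy, e2 ▸ hz⟩

theorem shift_anti {a : ℕ} {F : Finset (Finset ℕ)} (hF : Anti F) : Anti (shift a F) := by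
  intro X hX Y hY h
  obtain ⟨S, hS, rfl⟩ := mem_shift.1 hX
  obtain ⟨T, hT, rfl⟩ := mem_shift.1 hY
  have : S ⊆ T := by
    intro x hx
    obtain ⟨y, hy, e⟩ := mem_image.1 (h (mem_image_of_mem _ hx))
    have e1 : y = x := by omega
    exact e1 ▸ hy
  rw [hF S hS T hT this]

theorem sum_shift (a : ℕ) (F : Finset (Finset ℕ)) (z : ℝ) :
    ∑ X ∈ shift a F, z ^ X.card = ∑ S ∈ F, z ^ S.card := by
  classical
  unfold shift
  rw [sum_image (fun S _ T _ h => img_inj a h)]
  refine sum_congr rfl fun S _ => ?_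
  rw [card_image_of_injective]
  intro x y h
  have : a + x = a + y := h
  omega

theorem pw_bd {n : ℕ} {F : Finset (Finset ℕ)} (hF : ∀ S ∈ F, ∀ x ∈ S, x < n) (t : ℕ) :
    ∀ X ∈ pw n F t, ∀ x ∈ X, x < n * t := by
  induction t with
  | zero =>
    intro X hX x hx
    rw [pw, mem_singleton] at hX
    rw [hX] at hx
    exact absurd hx (notMem_empty x)
  | succ t ih =>
    intro X hX x hx
    rw [pw] at hX
    obtain ⟨S, hS, T, hT, rfl⟩ := mem_jn.1 hX
    rw [mul_add, mul_one]
    rcases mem_union.1 hx with h | h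
    · have := ih S hS x h
      omega
    · obtain ⟨T', hT', rfl⟩ := mem_shift.1 hT
      obtain ⟨y, hy, rfl⟩ := mem_image.1 h
      have := hF T' hT' y hy
      omega

theorem shift_ge {a : ℕ} {F : Finset (Finset ℕ)} : ∀ X ∈ shift a F, ∀ x ∈ X, a ≤ x := by
  intro X hX x hx
  obtain ⟨T', hT', rfl⟩ := mem_shift.1 hX
  obtain ⟨y, hy, rfl⟩ := mem_image.1 hx
  omega

theorem pw_sum {n : ℕ} {F : Finset (Finset ℕ)} (hF : ∀ S ∈ F, ∀ x ∈ S, x < n) (z : ℝ) (t : ℕ) :
    ∑ X ∈ pw n F t, z ^ X.card = (∑ S ∈ F, z ^ S.card) ^ t := by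
  induction t with
  | zero => simp [pw]
  | succ t ih => rw [pw, sum_jn (pw_bd hF t) shift_ge, ih, sum_shift, pow_succ]

theorem pw_card {n : ℕ} {F : Finset (Finset ℕ)} (hF : ∀ S ∈ F, ∀ x ∈ S, x < n) (t : ℕ) :
    (pw n F t).card = F.card ^ t := by
  have h := pw_sum hF 1 t
  simp only [one_pow, sum_const, nsmul_eq_mul, mul_one] at h
  exact_mod_cast h

theorem pw_anti {n : ℕ} {F : Finset (Finset ℕ)} (hF : ∀ S ∈ F, ∀ x ∈ S, x < n) (ha : Anti F)
    (t : ℕ) : Anti (pw n F t) := by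
  induction t with
  | zero =>
    intro X hX Y hY _
    rw [pw, mem_singleton] at hX hY
    rw [hX, hY]
  | succ t ih => exact jn_anti (pw_bd hF t) shift_ge ih (shift_anti ha)

theorem pw_free {r n : ℕ} (hr : 2 ≤ r) {F : Finset (Finset ℕ)} (hF : ∀ S ∈ F, ∀ x ∈ S, x < n)
    (ha : Anti F) (hf : SFree r F) (t : ℕ) : SFree r (pw n F t) := by
  induction t with
  | zero =>
    rintro ⟨G, hG, hc, -⟩
    have := card_le_card hG
    rw [pw, card_singleton] at this
    omega
  | succ t ih =>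
    exact jn_free hr (pw_bd hF t) shift_ge (pw_anti hF ha t) (shift_anti ha) ih (shift_free hf)

/-- the cardinality of the members of a power -/
theorem pw_unif {n j : ℕ} {F : Finset (Finset ℕ)} (hF : ∀ S ∈ F, ∀ x ∈ S, x < n)
    (hj : ∀ S ∈ F, S.card = j) (t : ℕ) : ∀ X ∈ pw n F t, X.card = j * t := by
  induction t with
  | zero =>
    intro X hX
    rw [pw, mem_singleton] at hX
    rw [hX, card_empty, mul_zero]
  | succ t ih =>
    intro X hX
    obtain ⟨S, hS, T, hT, rfl⟩ := mem_jn.1 hX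
    obtain ⟨T', hT', rfl⟩ := mem_shift.1 hT
    rw [card_union_of_disjoint, ih S hS, card_image_of_injective, hj T' hT', mul_add, mul_one]
    · intro x y h
      have : n * t + x = n * t + y := h
      omega
    · rw [disjoint_left]
      intro x hx hx'
      have h1 := pw_bd hF t S hS x hx
      have h2 := shift_ge _ hT x hx'
      omega

/-- the cardinality of the members of a power -/
theorem pw_le {n k : ℕ} {F : Finset (Finset ℕ)}
    (hk : ∀ S ∈ F, S.card ≤ k) (t : ℕ) : ∀ X ∈ pw n F t, X.card ≤ k * t := by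
  induction t with
  | zero =>
    intro X hX
    rw [pw, mem_singleton] at hX
    rw [hX, card_empty, mul_zero]
  | succ t ih =>
    intro X hX
    obtain ⟨S, hS, T, hT, rfl⟩ := mem_jn.1 hX
    obtain ⟨T', hT', rfl⟩ := mem_shift.1 hT
    have h1 := card_union_le S (T'.image (fun x => n * t + x))
    have h2 := ih S hS
    have h3 := hk T' hT'
    have h4 : (T'.image (fun x => n * t + x)).card ≤ T'.card := card_image_le
    rw [mul_add, mul_one]
    omega

/-- The inequality of Lubell, Yamamoto and Meshalkin for families without sunflowers. -/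
theorem lym {r : ℕ} (hr : 2 ≤ r) {c : ℝ} (hc : 0 < c) (hb : ∀ k, SetBound r k (c ^ k))
    {F : Finset (Finset ℕ)} (ha : Anti F) (hf : SFree r F) :
    ∑ S ∈ F, (c⁻¹) ^ S.card ≤ 1 := by
  classical
  set n := (F.biUnion id).sup id + 1 with hn
  have hFn : ∀ S ∈ F, ∀ x ∈ S, x < n := by
    intro S hS x hx
    have : id x ≤ (F.biUnion id).sup id := le_sup (mem_biUnion.2 ⟨S, hS, hx⟩)
    simp only [id] at this
    rw [hn]
    exact Nat.lt_succ_of_le this
  set k := F.sup card with hk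
  have hFk : ∀ S ∈ F, S.card ≤ k := fun S hS => le_sup (f := card) hS
  -- bound for the powers
  have hpow : ∀ t : ℕ, (∑ S ∈ F, (c⁻¹) ^ S.card) ^ t ≤ k * t + 1 := by
    intro t
    rw [← pw_sum hFn]
    rw [← sum_fiberwise_of_maps_to (s := pw n F t) (t := range (k * t + 1)) (g := card)
      (fun X hX => mem_range.2 (Nat.lt_succ_of_le (pw_le hFk t X hX)))]
    have h1 : ∀ j ∈ range (k * t + 1),
        ∑ X ∈ (pw n F t).filter (fun X => X.card = j), (c⁻¹) ^ X.card ≤ 1 := by
      intro j _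
      have h2 : ∑ X ∈ (pw n F t).filter (fun X => X.card = j), (c⁻¹) ^ X.card =
          ((pw n F t).filter (fun X => X.card = j)).card * (c⁻¹) ^ j := by
        rw [sum_congr rfl fun X hX => by rw [(mem_filter.1 hX).2], sum_const, nsmul_eq_mul]
      have h3 := hb j ((pw n F t).filter (fun X => X.card = j))
        (fun X hX => (mem_filter.1 hX).2) (by
          rintro ⟨G, hG, hGc, hGs⟩
          exact pw_free hr hFn ha hf t ⟨G, hG.trans (filter_subset _ _), hGc, hGs⟩)
      rw [h2, inv_pow, ← div_eq_mul_inv, div_le_one (by positivity)]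
      exact h3
    calc _ ≤ ∑ j ∈ range (k * t + 1), (1:ℝ) := sum_le_sum h1
      _ = k * t + 1 := by simp
  by_contra hlt
  push Not at hlt
  set x := ∑ S ∈ F, (c⁻¹) ^ S.card with hx
  -- exponential growth beats linear growth
  have h5 : Filter.Tendsto (fun t : ℕ => ((t:ℝ)) / x ^ t) Filter.atTop (nhds 0) := by
    have := tendsto_pow_const_div_const_pow_of_one_lt 1 hlt
    simpa using this
  have h6 : Filter.Tendsto (fun t : ℕ => (1:ℝ) / x ^ t) Filter.atTop (nhds 0) := by
    have := tendsto_pow_const_div_const_pow_of_one_lt 0 hlt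
    simpa using this
  have h7 : Filter.Tendsto (fun t : ℕ => (k:ℝ) * ((t:ℝ) / x ^ t) + 1 / x ^ t) Filter.atTop
      (nhds 0) := by
    have := (h5.const_mul (k:ℝ)).add h6
    simpa using this
  have h8 := h7.eventually (gt_mem_nhds (show (0:ℝ) < 1 by norm_num))
  obtain ⟨t, ht⟩ := h8.exists
  have h9 := hpow t
  have h10 : 0 < x ^ t := by positivity
  have h11 : (k:ℝ) * ((t:ℝ) / x ^ t) + 1 / x ^ t = (k * t + 1) / x ^ t := by ring
  rw [h11, div_lt_one h10] at ht
  linarith

end Pool.Agent.Helper90.SharpEq
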