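import Pool.Agent.Helper90.SharpEq.Defs

/-!
Selection of uniform exponents with the weights `wt`.
-/

open Finset

namespace Pool.Agent.Helper90.SharpEq

private theorem Sel_wt_nonneg {c : ℝ} (hc : 0 < c) (e : ℕ) : 0 ≤ wt c e := by
  unfold wt
  by_cases h : e = 0
  · rw [if_pos h]
    exact zero_le_one
  · rw [if_neg h]
    positivity

private theorem Sel_wt_eq {c : ℝ} (hc : 0 < c) (n : ℕ) :
    ∑ e ∈ Ioc 0 n, wt c e = 1 - 1 / (1 + c) ^ n := by
  induction n with
  | zero => simp
  | succ n ihn =>
    have h1 : (0 : ℝ) < 1 + c := by linarith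
    have h2 : (1 + c) ^ n ≠ 0 := pow_ne_zero _ h1.ne'
    rw [sum_Ioc_succ_top (by omega), ihn]
    unfold wt
    rw [if_neg (Nat.succ_ne_zero n), pow_succ]
    field_simp
    ring

/-- the weights of the positive exponents have sum at most 1 -/
theorem wt_sum {c : ℝ} (hc : 0 < c) (n : ℕ) : ∑ e ∈ Ioc 0 n, wt c e ≤ 1 := by
  rw [Sel_wt_eq hc n]
  have : (0 : ℝ) ≤ 1 / (1 + c) ^ n := by positivity
  linarith

/-- From `A` one can select a subset in which the exponents of the primes in `P` are uniform. -/
theorem sel {c : ℝ} (hc : 0 < c) (P : Finset ℕ) : ∀ (A : Finset ℕ) (u : ℕ → ℝ), (∀ a, 0 ≤ u a) →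
    ∃ A' : Finset ℕ, A' ⊆ A ∧
      (∀ p ∈ P, ∀ a ∈ A', ∀ b ∈ A', a.factorization p ≠ 0 → b.factorization p ≠ 0 →
        a.factorization p = b.factorization p) ∧
      ∑ a ∈ A, u a * ∏ p ∈ P, wt c (a.factorization p) ≤ ∑ a ∈ A', u a := by
  classical
  induction P using Finset.induction_on with
  | empty =>
    intro A w _
    exact ⟨A, subset_refl _, by simp, by simp⟩
  | insert p P hp ih =>
    intro A w hw
    obtain ⟨A', h1, h2, h3⟩ := ih A (fun a => w a * wt c (a.factorization p))
      (fun a => mul_nonneg (hw a) (Sel_wt_nonneg hc _))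
    -- the exponents of `p`
    set K := (A'.sup (fun a => a.factorization p)) + 1 with hK
    have hKb : ∀ a ∈ A', a.factorization p < K := by
      intro a ha
      have : a.factorization p ≤ A'.sup (fun a => a.factorization p) :=
        le_sup (f := fun a => a.factorization p) ha
      omega
    obtain ⟨e, he, hmax⟩ := exists_max_image (Ioc 0 K)
      (fun e => ∑ a ∈ A'.filter (fun a => a.factorization p = e), w a)
      ⟨K, mem_Ioc.2 ⟨by omega, le_refl _⟩⟩
    have he0 : e ≠ 0 := (mem_Ioc.1 he).1.ne'
    refine ⟨A'.filter (fun a => a.factorization p = 0 ∨ a.factorization p = e),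
      (filter_subset _ _).trans h1, ?_, ?_⟩
    · intro q hq a ha b hb ha0 hb0
      rw [mem_filter] at ha hb
      rcases mem_insert.1 hq with h | h
      · subst h
        rw [ha.2.resolve_left ha0, hb.2.resolve_left hb0]
      · exact h2 q h a ha.1 b hb.1 ha0 hb0
    · have e1 : ∑ a ∈ A, w a * ∏ q ∈ insert p P, wt c (a.factorization q) =
          ∑ a ∈ A, w a * wt c (a.factorization p) *
            ∏ q ∈ P, wt c (a.factorization q) := by
        refine sum_congr rfl fun a _ => ?_
        rw [prod_insert hp]
        ring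
      rw [e1]
      refine h3.trans ?_
      set W : ℕ → ℝ := fun e => ∑ a ∈ A'.filter (fun a => a.factorization p = e), w a with hW
      have hW0 : ∀ e, 0 ≤ W e := fun e => sum_nonneg fun a _ => hw a
      have e2 : ∑ a ∈ A', w a * wt c (a.factorization p) =
          ∑ f ∈ Icc 0 K, W f * wt c f := by
        rw [← sum_fiberwise_of_maps_to (s := A') (t := Icc 0 K) (g := fun a => a.factorization p)
          (fun a ha => mem_Icc.2 ⟨Nat.zero_le _, (hKb a ha).le⟩)]
        refine sum_congr rfl fun f _ => ?_
        rw [hW]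
        simp only
        rw [sum_mul]
        refine sum_congr rfl fun a ha => ?_
        rw [(mem_filter.1 ha).2]
      have e3 : ∑ f ∈ Icc 0 K, W f * wt c f ≤ W 0 + W e := by
        have e4 : Icc 0 K = insert 0 (Ioc 0 K) := by
          ext x
          simp only [mem_Icc, mem_insert, mem_Ioc]
          omega
        have e6 : wt c 0 = 1 := by
          unfold wt
          rw [if_pos rfl]
        rw [e4, sum_insert (by simp), e6, mul_one]
        refine add_le_add_right ?_ _
        calc ∑ f ∈ Ioc 0 K, W f * wt c f ≤ ∑ f ∈ Ioc 0 K, W e * wt c f :=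
              sum_le_sum fun f hf => mul_le_mul_of_nonneg_right (hmax f hf) (Sel_wt_nonneg hc _)
          _ = W e * ∑ f ∈ Ioc 0 K, wt c f := by rw [mul_sum]
          _ ≤ W e * 1 := mul_le_mul_of_nonneg_left (wt_sum hc K) (hW0 e)
          _ = W e := mul_one _
      have e5 : ∑ a ∈ A'.filter (fun a => a.factorization p = 0 ∨ a.factorization p = e), w a =
          W 0 + W e := by
        rw [filter_or, sum_union]
        rw [disjoint_filter]
        intro a _ h0 h0'
        exact he0 (h0' ▸ h0 ▸ rfl)
      rw [e5, e2]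
      exact e3

end Pool.Agent.Helper90.SharpEq
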