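import Pool.Agent.Helper90.SharpEq.Defs

/-!
Smooth and rough parts.
-/

open Finset

namespace Pool.Agent.Helper90.SharpEq

private theorem Split_sm_eq (y a : ℕ) :
    sm y a = (a.factorization.filter (fun p => p ≤ y)).prod (fun p e => p ^ e) := by
  unfold sm
  rw [Finsupp.prod, Finsupp.support_filter]
  refine Finset.prod_congr rfl fun p hp => ?_
  rw [Finsupp.filter_apply_pos (fun p => p ≤ y) _ (Finset.mem_filter.1 hp).2]

private theorem Split_sm_factorization (y a : ℕ) :
    (sm y a).factorization = a.factorization.filter (fun p => p ≤ y) := by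
  rw [Split_sm_eq]
  refine Nat.prod_pow_factorization_eq_self fun p hp => ?_
  rw [Finsupp.support_filter] at hp
  exact Nat.prime_of_mem_primeFactors (Finset.mem_filter.1 hp).1

private theorem Split_sm_ne (y a : ℕ) : sm y a ≠ 0 := by
  unfold sm
  refine Finset.prod_ne_zero_iff.2 fun p hp => ?_
  exact pow_ne_zero _ (Nat.prime_of_mem_primeFactors (Finset.mem_filter.1 hp).1).ne_zero

/-- the factorization of the smooth part -/
theorem sm_fact (y a p : ℕ) :
    (sm y a).factorization p = if p ≤ y then a.factorization p else 0 := by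
  rw [Split_sm_factorization, Finsupp.filter_apply]

theorem sm_dvd (y : ℕ) {a : ℕ} (ha : 0 < a) : sm y a ∣ a := by
  rw [← Nat.factorization_le_iff_dvd (Split_sm_ne y a) ha.ne']
  intro p
  rw [sm_fact]
  split_ifs
  · exact le_rfl
  · exact Nat.zero_le _

/-- number of smooth parts -/
theorem card_sm {N y : ℕ} {A : Finset ℕ} (hA : A ⊆ Icc 1 N) :
    (A.image (sm y)).card ≤ (Nat.log 2 N + 1) ^ y := by
  classical
  have h1 : ((Fintype.piFinset fun _ : Fin y => range (Nat.log 2 N + 1))).card =
      (Nat.log 2 N + 1) ^ y := by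
    rw [Fintype.card_piFinset]
    simp
  rw [← h1]
  refine Finset.card_le_card_of_injOn (fun s i => s.factorization (i.1 + 1)) ?_ ?_
  · intro s hs
    obtain ⟨a, ha, rfl⟩ := Finset.mem_image.1 hs
    have haN := Finset.mem_Icc.1 (hA ha)
    simp only [Finset.mem_coe, Fintype.mem_piFinset, Finset.mem_range]
    intro i
    rw [sm_fact, if_pos (by omega)]
    rw [Nat.lt_succ_iff]
    rcases Nat.eq_zero_or_pos (a.factorization (i.1 + 1)) with h0 | h0
    · rw [h0]; exact Nat.zero_le _
    have hp : (i.1 + 1).Prime := by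
      by_contra hn
      rw [Nat.factorization_eq_zero_of_not_prime _ hn] at h0
      exact lt_irrefl _ h0
    refine Nat.le_log_of_pow_le (by norm_num) ?_
    calc 2 ^ (a.factorization (i.1 + 1)) ≤ (i.1 + 1) ^ (a.factorization (i.1 + 1)) :=
          Nat.pow_le_pow_left hp.two_le _
      _ ≤ a := Nat.le_of_dvd (by omega) (Nat.ordProj_dvd a (i.1 + 1))
      _ ≤ N := haN.2
  · intro s hs t ht hst
    obtain ⟨a, ha, rfl⟩ := Finset.mem_image.1 hs
    obtain ⟨b, hb, rfl⟩ := Finset.mem_image.1 ht
    refine Nat.eq_of_factorization_eq (Split_sm_ne y a) (Split_sm_ne y b) fun p => ?_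
    by_cases hp : p ≤ y
    · rcases Nat.eq_zero_or_pos p with rfl | hp0
      · simp
      · have := congrFun hst ⟨p - 1, by omega⟩
        simpa [Nat.sub_add_cancel hp0] using this
    · rw [sm_fact, sm_fact, if_neg hp, if_neg hp]

private theorem Split_pow_le (y : ℕ) (l : List ℕ) (h : ∀ x ∈ l, y ≤ x) :
    y ^ l.length ≤ l.prod := by
  induction l with
  | nil => simp
  | cons x l ih =>
    rw [List.length_cons, List.prod_cons, pow_succ, mul_comm]
    exact Nat.mul_le_mul (h x (by simp)) (ih fun z hz => h z (by simp [hz]))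

/-- number of prime factors of the rough part -/
theorem rough_len {N y a : ℕ} (hy : 2 ≤ y) (ha : 0 < a) (haN : a ≤ N) :
    y ^ (a / sm y a).primeFactorsList.length ≤ N := by
  have hd := sm_dvd y ha
  have hne : a / sm y a ≠ 0 := by
    have := Nat.div_pos (Nat.le_of_dvd ha hd) (Nat.pos_of_ne_zero (Split_sm_ne y a))
    exact this.ne'
  calc y ^ (a / sm y a).primeFactorsList.length ≤ (a / sm y a).primeFactorsList.prod := by
        refine Split_pow_le _ _ fun q hq => ?_
        by_contra hlt
        push Not at hlt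
        have hqp := Nat.prime_of_mem_primeFactorsList hq
        have hqd := Nat.dvd_of_mem_primeFactorsList hq
        have h1 : (a / sm y a).factorization q = 0 := by
          rw [Nat.factorization_div hd, Finsupp.tsub_apply, sm_fact, if_pos hlt.le, Nat.sub_self]
        have h2 := (hqp.dvd_iff_one_le_factorization hne).1 hqd
        omega
    _ = a / sm y a := Nat.prod_primeFactorsList hne
    _ ≤ a := Nat.div_le_self _ _
    _ ≤ N := haN

theorem split {N y : ℕ} (hN : 1 ≤ N) (hy : 2 ≤ y) {c : ℝ} (hc : 1 ≤ c) (A : Finset ℕ)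
    (hA : A ⊆ Icc 1 N)
    (h : ∀ s k : ℕ, ((A.filter (fun a => sm y a = s ∧
      (a / sm y a).primeFactorsList.length = k)).card : ℝ) ≤ c ^ k) :
    (A.card : ℝ) ≤ ((Nat.log 2 N : ℝ) + 1) ^ y * ((Nat.log 2 N : ℝ) + 1) *
      c ^ (Real.log N / Real.log y) := by
  classical
  have hmaps : ∀ a ∈ A, (sm y a, (a / sm y a).primeFactorsList.length) ∈
      (A.image (sm y)) ×ˢ range (Nat.log 2 N + 1) := by
    intro a ha
    have haN := Finset.mem_Icc.1 (hA ha)
    refine Finset.mem_product.2 ⟨Finset.mem_image_of_mem _ ha, Finset.mem_range.2 ?_⟩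
    rw [Nat.lt_succ_iff]
    refine Nat.le_log_of_pow_le (by norm_num) ?_
    exact (Nat.pow_le_pow_left hy _).trans (rough_len hy haN.1 haN.2)
  have hcard := Finset.card_eq_sum_card_fiberwise
    (f := fun a => (sm y a, (a / sm y a).primeFactorsList.length)) hmaps
  have hfib : ∀ q ∈ (A.image (sm y)) ×ˢ range (Nat.log 2 N + 1),
      ((A.filter (fun a => (sm y a, (a / sm y a).primeFactorsList.length) = q)).card : ℝ) ≤
        c ^ (Real.log N / Real.log y) := by
    rintro ⟨s, k⟩ _
    have heq : A.filter (fun a => (sm y a, (a / sm y a).primeFactorsList.length) = (s, k)) =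
        A.filter (fun a => sm y a = s ∧ (a / sm y a).primeFactorsList.length = k) := by
      refine Finset.filter_congr fun a _ => ?_
      rw [Prod.mk.injEq]
    rw [heq]
    rcases Finset.eq_empty_or_nonempty
      (A.filter (fun a => sm y a = s ∧ (a / sm y a).primeFactorsList.length = k)) with he | ⟨a, ha⟩
    · rw [he]
      simp only [Finset.card_empty, Nat.cast_zero]
      exact Real.rpow_nonneg (by linarith) _
    · refine (h s k).trans ?_
      obtain ⟨haA, has, hak⟩ := Finset.mem_filter.1 ha
      have haN := Finset.mem_Icc.1 (hA haA)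
      have h1 := rough_len hy haN.1 haN.2
      rw [hak] at h1
      rw [← Real.rpow_natCast]
      refine Real.rpow_le_rpow_of_exponent_le hc ?_
      have hlogy : 0 < Real.log y := Real.log_pos (by exact_mod_cast (by omega : 1 < y))
      rw [le_div_iff₀ hlogy, ← Real.log_pow]
      refine Real.log_le_log ?_ (by exact_mod_cast h1)
      have : 0 < y := by omega
      positivity
  have hsum : (A.card : ℝ) ≤ ∑ _q ∈ (A.image (sm y)) ×ˢ range (Nat.log 2 N + 1),
      c ^ (Real.log N / Real.log y) := by
    rw [hcard]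
    push_cast
    exact Finset.sum_le_sum hfib
  refine hsum.trans ?_
  rw [Finset.sum_const, Finset.card_product, Finset.card_range, nsmul_eq_mul]
  push_cast
  refine mul_le_mul_of_nonneg_right ?_ (Real.rpow_nonneg (by linarith) _)
  refine mul_le_mul_of_nonneg_right ?_ (by positivity)
  exact_mod_cast card_sm hA

end Pool.Agent.Helper90.SharpEq
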