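import Pool.Agent.Helper90.SharpEq.Defs

/-!
Squarefree integers.
-/

open Finset

namespace Pool.Agent.Helper90.SharpEq

open Pool.Agent.Helper10.GcdSun

theorem sqf {r n j : ℕ} {F : Finset (Finset ℕ)} (hF : ∀ S ∈ F, ∀ x ∈ S, x < n)
    (hj : ∀ S ∈ F, S.card = j) (hf : SFree r F) :
    ∃ A : Finset ℕ, A.card = F.card ∧
      (∀ a ∈ A, 0 < a ∧ a ≤ (Nat.nth Nat.Prime n) ^ j) ∧ PFree r A := by
  classical
  refine ⟨F.image enc, card_image_of_injective _ enc_inj, ?_, ?_⟩
  · intro a ha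
    obtain ⟨S, hS, rfl⟩ := mem_image.1 ha
    refine ⟨enc_pos S, ?_⟩
    have h1 : enc S ≤ ∏ _i ∈ S, Nat.nth Nat.Prime n := by
      refine prod_le_prod' fun i hi => ?_
      exact (Nat.nth_strictMono Nat.infinite_setOfPred_prime).monotone (hF S hS i hi).le
    rw [prod_const, hj S hS] at h1
    exact h1
  · rintro ⟨S', hS', hcard, d, hgcd⟩
    have hG : S' = (F.filter (fun S => enc S ∈ S')).image enc := by
      ext a
      constructor
      · intro ha
        obtain ⟨S, hS, rfl⟩ := mem_image.1 (hS' ha)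
        exact mem_image.2 ⟨S, mem_filter.2 ⟨hS, ha⟩, rfl⟩
      · intro ha
        obtain ⟨S, hS, rfl⟩ := mem_image.1 ha
        exact (mem_filter.1 hS).2
    refine hf ⟨F.filter (fun S => enc S ∈ S'), filter_subset _ _, ?_,
      ((F.filter (fun S => enc S ∈ S')).biUnion id).filter
        (fun i => Nat.nth Nat.Prime i ∣ d), ?_⟩
    · rw [hG, card_image_of_injective _ enc_inj] at hcard
      exact hcard
    · intro S hS T hT hST
      have hg := hgcd _ (mem_filter.1 hS).2 _ (mem_filter.1 hT).2 (fun h => hST (enc_inj h))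
      ext i
      rw [mem_inter, mem_filter, ← hg, Nat.dvd_gcd_iff, dvd_enc, dvd_enc]
      constructor
      · rintro ⟨a, b⟩
        exact ⟨mem_biUnion.2 ⟨S, hS, a⟩, a, b⟩
      · rintro ⟨-, a, b⟩
        exact ⟨a, b⟩

end Pool.Agent.Helper90.SharpEq
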